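import Pool.Agent.Lib.MP_d61770_an.Defs

set_option autoImplicit false

namespace Pool.Agent.Lib.MP_d61770_an

open MeasureTheory Filter Topology Metric Set
open scoped ENNReal Polynomial

/-- The shifted functions `exp(b (1-z+t)⁻²)`. -/
noncomputable def gg (b t : ℝ) (z : ℂ) : ℂ := Complex.exp (b / (1 - z + t) ^ 2)

/-- `∫ |F|^q dμ₀`. -/
noncomputable def NN (q : ℝ) (F : ℂ → ℂ) : ℝ≥0∞ := ∫⁻ z, ENNReal.ofReal (‖F z‖ ^ q) ∂mu0

theorem re_div_sq (a : ℝ) (ζ : ℂ) :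
    ((a : ℂ) / ζ ^ 2).re = a * (ζ.re ^ 2 - ζ.im ^ 2) / (ζ.re ^ 2 + ζ.im ^ 2) ^ 2 := by
  rw [Complex.div_re]
  have h1 : (ζ ^ 2).re = ζ.re ^ 2 - ζ.im ^ 2 := by
    rw [pow_two, Complex.mul_re]; ring
  have h2 : Complex.normSq (ζ ^ 2) = (ζ.re ^ 2 + ζ.im ^ 2) ^ 2 := by
    rw [map_pow, Complex.normSq_apply]; ring
  rw [h1, h2]
  simp

theorem alg_ineq {x y : ℝ} (hx : 0 < x) :
    -((x ^ 2 - y ^ 2) / (x ^ 2 + y ^ 2) ^ 2) ≤ (1 / 8) / x ^ 2 := by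
  have h1 : 0 < x ^ 2 + y ^ 2 := by positivity
  rw [← neg_div, div_div, div_le_div_iff₀ (by positivity) (by positivity)]
  nlinarith [sq_nonneg (3 * x ^ 2 - y ^ 2)]

theorem re_one_sub {z : ℂ} : 1 - ‖z‖ ≤ (1 - z).re := by
  have := Complex.re_le_norm z
  simp only [Complex.sub_re, Complex.one_re]
  linarith

theorem re_ff_le {a : ℝ} (ha : 0 ≤ a) {z : ℂ} (hz : ‖z‖ < 1) :
    (-((a : ℂ) / (1 - z) ^ 2)).re ≤ (a / 8) / (1 - ‖z‖) ^ 2 := by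
  have h0 : 0 < 1 - ‖z‖ := by linarith
  have h1 : 1 - ‖z‖ ≤ (1 - z).re := re_one_sub
  have hx : 0 < (1 - z).re := by linarith
  rw [Complex.neg_re, re_div_sq]
  have h2 := alg_ineq (x := (1 - z).re) (y := (1 - z).im) hx
  have h3 : (1 / 8 : ℝ) / (1 - z).re ^ 2 ≤ (1 / 8) / (1 - ‖z‖) ^ 2 := by
    gcongr
  calc -(a * ((1 - z).re ^ 2 - (1 - z).im ^ 2) / ((1 - z).re ^ 2 + (1 - z).im ^ 2) ^ 2)
      = a * -(((1 - z).re ^ 2 - (1 - z).im ^ 2) / ((1 - z).re ^ 2 + (1 - z).im ^ 2) ^ 2) := by ring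
    _ ≤ a * ((1 / 8) / (1 - ‖z‖) ^ 2) := by
        apply mul_le_mul_of_nonneg_left (h2.trans h3) ha
    _ = (a / 8) / (1 - ‖z‖) ^ 2 := by ring

theorem re_gg_le {b t : ℝ} (hb : 0 ≤ b) (ht : 0 ≤ t) {z : ℂ} (hz : ‖z‖ < 1) :
    ((b : ℂ) / (1 - z + t) ^ 2).re ≤ b / (1 - ‖z‖) ^ 2 := by
  have h0 : 0 < 1 - ‖z‖ := by linarith
  have h1 : 1 - ‖z‖ ≤ (1 - z).re := re_one_sub
  have h2 : (1 - z).re ≤ ‖1 - z + (t : ℂ)‖ := by
    refine le_trans ?_ (Complex.re_le_norm _)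
    simp only [Complex.add_re, Complex.ofReal_re]
    linarith
  refine (Complex.re_le_norm _).trans ?_
  rw [norm_div, norm_pow, Complex.norm_real, Real.norm_of_nonneg hb]
  gcongr
  linarith

theorem norm_ff (a : ℝ) (z : ℂ) : ‖ff a z‖ = Real.exp (-((a : ℂ) / (1 - z) ^ 2)).re := by
  rw [ff, Complex.norm_exp]

theorem norm_gg (b t : ℝ) (z : ℂ) : ‖gg b t z‖ = Real.exp ((b : ℂ) / (1 - z + t) ^ 2).re := by
  rw [gg, Complex.norm_exp]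

theorem wt_nonneg (z : ℂ) : 0 ≤ wt z := (Real.exp_pos _).le

theorem wt_pos (z : ℂ) : 0 < wt z := Real.exp_pos _

theorem wt_le_one {z : ℂ} : wt z ≤ 1 := by
  unfold wt
  rw [Real.exp_le_one_iff]
  have : 0 ≤ 1 / (1 - ‖z‖) ^ 2 := by positivity
  linarith

/-- The basic bound. -/
theorem gf_bound {a b t q : ℝ} (ha : 0 ≤ a) (hb : 0 ≤ b) (ht : 0 ≤ t) (hq : 0 ≤ q)
    (h : (a / 8 + b) * q ≤ 1) {z : ℂ} (hz : ‖z‖ < 1) :
    ‖gg b t z * ff a z‖ ^ q * wt z ≤ 1 := by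
  have h0 : 0 < 1 - ‖z‖ := by linarith
  rw [norm_mul, norm_ff, norm_gg, ← Real.exp_add, ← Real.exp_mul, wt, ← Real.exp_add,
    Real.exp_le_one_iff]
  have h1 := re_ff_le ha hz
  have h2 := re_gg_le hb ht hz
  have h3 : (((b : ℂ) / (1 - z + t) ^ 2).re + (-((a : ℂ) / (1 - z) ^ 2)).re) * q ≤
      (b / (1 - ‖z‖) ^ 2 + (a / 8) / (1 - ‖z‖) ^ 2) * q :=
    mul_le_mul_of_nonneg_right (by linarith) hq
  have h4 : (b / (1 - ‖z‖) ^ 2 + (a / 8) / (1 - ‖z‖) ^ 2) * q =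
      ((a / 8 + b) * q) * (1 / (1 - ‖z‖) ^ 2) := by ring
  have h5 : ((a / 8 + b) * q) * (1 / (1 - ‖z‖) ^ 2) ≤ 1 * (1 / (1 - ‖z‖) ^ 2) :=
    mul_le_mul_of_nonneg_right h (by positivity)
  linarith

theorem f_bound {a q : ℝ} (ha : 0 ≤ a) (hq : 0 ≤ q)
    (h : (a / 8) * q ≤ 1) {z : ℂ} (hz : ‖z‖ < 1) :
    ‖ff a z‖ ^ q * wt z ≤ 1 := by
  have := gf_bound (a := a) (b := 0) (t := 0) (q := q) ha le_rfl le_rfl hq (by simpa using h) hz
  simpa [gg] using this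

theorem one_sub_ne {z : ℂ} (hz : ‖z‖ < 1) : (1 - z : ℂ) ≠ 0 := by
  intro h
  have h1 : 1 - ‖z‖ ≤ (1 - z).re := re_one_sub
  rw [h, Complex.zero_re] at h1
  linarith

theorem one_sub_add_ne {z : ℂ} {t : ℝ} (hz : ‖z‖ < 1 + t) : (1 - z + t : ℂ) ≠ 0 := by
  intro h
  have h1 : 1 - ‖z‖ ≤ (1 - z).re := re_one_sub
  have h2 : (1 - z + t : ℂ).re = 0 := by rw [h, Complex.zero_re]
  simp only [Complex.add_re, Complex.ofReal_re] at h2
  linarith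

theorem ff_diff (a : ℝ) {z : ℂ} (hz : ‖z‖ < 1) : DifferentiableAt ℂ (ff a) z := by
  unfold ff
  have h := one_sub_ne hz
  fun_prop (disch := simpa using h)

theorem ff_diffOn (a : ℝ) : DifferentiableOn ℂ (ff a) (ball 0 1) := fun z hz =>
  (ff_diff a (by simpa using hz)).differentiableWithinAt

theorem gg_diff (b t : ℝ) {z : ℂ} (hz : ‖z‖ < 1 + t) : DifferentiableAt ℂ (gg b t) z := by
  unfold gg
  have h := one_sub_add_ne hz
  fun_prop (disch := simpa using h)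

theorem gg_diffOn (b t : ℝ) : DifferentiableOn ℂ (gg b t) (ball 0 (1 + t)) := fun z hz =>
  (gg_diff b t (by simpa using hz)).differentiableWithinAt

theorem ff_sub (a b : ℝ) (z : ℂ) : ff (a - b) z = gg b 0 z * ff a z := by
  unfold ff gg
  rw [← Complex.exp_add]
  congr 1
  push_cast
  rw [add_zero]
  ring

theorem measurable_wt : Measurable wt := by
  unfold wt
  fun_prop

theorem measurable_ff (a : ℝ) : Measurable (ff a) := by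
  unfold ff
  fun_prop

theorem measurable_gg (b t : ℝ) : Measurable (gg b t) := by
  unfold gg
  fun_prop

/-- The (quasi) triangle inequality. -/
theorem norm_add_rpow_le {q : ℝ} (hq : 0 ≤ q) (a b : ℂ) :
    ‖a + b‖ ^ q ≤ 2 ^ q * (‖a‖ ^ q + ‖b‖ ^ q) := by
  have h1 : ‖a + b‖ ≤ 2 * max ‖a‖ ‖b‖ := by
    have := norm_add_le a b
    have h2 := le_max_left ‖a‖ ‖b‖
    have h3 := le_max_right ‖a‖ ‖b‖
    linarith
  have h2 : ‖a + b‖ ^ q ≤ (2 * max ‖a‖ ‖b‖) ^ q :=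
    Real.rpow_le_rpow (norm_nonneg _) h1 hq
  rw [Real.mul_rpow (by norm_num) (le_max_of_le_left (norm_nonneg _))] at h2
  refine h2.trans ?_
  apply mul_le_mul_of_nonneg_left _ (by positivity)
  rcases le_total ‖a‖ ‖b‖ with h | h
  · rw [max_eq_right h]
    have : 0 ≤ ‖a‖ ^ q := by positivity
    linarith
  · rw [max_eq_left h]
    have : 0 ≤ ‖b‖ ^ q := by positivity
    linarith

theorem norm_sub_rpow_le {q : ℝ} (hq : 0 ≤ q) (a b : ℂ) :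
    ‖a - b‖ ^ q ≤ 2 ^ q * (‖a‖ ^ q + ‖b‖ ^ q) := by
  have := norm_add_rpow_le hq a (-b)
  rwa [norm_neg, ← sub_eq_add_neg] at this

end Pool.Agent.Lib.MP_d61770_an
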