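import Pool.Agent.Lib.MP_d61770_an.Norm

/-!
# Weak invertibility in `E^q(mu0)` for `q < p`
-/

set_option autoImplicit false

namespace Pool.Agent.Lib.MP_d61770_an

open MeasureTheory Filter Topology Metric Set
open scoped ENNReal Polynomial Real NNReal

/-- Uniform approximation of the shifted functions by polynomials. -/
theorem poly_approx (b : ℝ) {t ε : ℝ} (ht : 0 < t) (hε : 0 < ε) :
    ∃ P : ℂ[X], ∀ z ∈ ball (0 : ℂ) 1, ‖P.eval z - gg b t z‖ ≤ ε := by
  set R : ℝ≥0 := Real.toNNReal (1 + t / 2) with hR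
  have hRc : (R : ℝ) = 1 + t / 2 := Real.coe_toNNReal _ (by positivity)
  have hRpos : 0 < R := by
    rw [← NNReal.coe_pos, hRc]; positivity
  have h1 : DifferentiableOn ℂ (gg b t) (closedBall 0 R) := by
    apply (gg_diffOn b t).mono
    apply closedBall_subset_ball
    rw [hRc]
    linarith
  have h2 := h1.hasFPowerSeriesOnBall hRpos
  have h3 := h2.tendstoUniformlyOn (r' := 1) (by
    rw [ENNReal.coe_lt_coe, ← NNReal.coe_lt_coe, hRc, NNReal.coe_one]
    linarith)
  rw [Metric.tendstoUniformlyOn_iff] at h3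
  obtain ⟨n, hn⟩ := (h3 ε hε).exists
  set p := cauchyPowerSeries (gg b t) 0 R with hp
  refine ⟨∑ k ∈ Finset.range n, Polynomial.C (p.coeff k) * Polynomial.X ^ k, fun z hz => ?_⟩
  have h4 := hn z (by simpa using hz)
  rw [dist_comm, dist_eq_norm] at h4
  simp only [zero_add] at h4
  refine le_trans (le_of_eq ?_) h4.le
  congr 2
  rw [Polynomial.eval_finsetSum, FormalMultilinearSeries.partialSum]
  apply Finset.sum_congr rfl
  intro k _
  rw [FormalMultilinearSeries.apply_eq_pow_smul_coeff]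
  simp only [Polynomial.eval_mul, Polynomial.eval_C, Polynomial.eval_pow, Polynomial.eval_X,
    smul_eq_mul]
  ring

theorem NN_eq (q : ℝ) (F : ℂ → ℂ) : NN q F =
    ∫⁻ w in ball (0 : ℂ) 1, ENNReal.ofReal (wt w) * ENNReal.ofReal (‖F w‖ ^ q) := by
  unfold NN
  rw [lint_mu0]

theorem NN_mono {q : ℝ} (hq : 0 ≤ q) {F G : ℂ → ℂ} (h : ∀ z ∈ ball (0 : ℂ) 1, ‖F z‖ ≤ ‖G z‖) :
    NN q F ≤ NN q G := by
  rw [NN_eq, NN_eq]
  apply setLIntegral_mono' measurableSet_ball
  intro w hw
  gcongr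
  exact h w hw

theorem NN_add_le {q : ℝ} (hq : 0 ≤ q) {u v : ℂ → ℂ} (hu : Measurable u) :
    NN q (fun z => u z + v z) ≤ ENNReal.ofReal (2 ^ q) * (NN q u + NN q v) := by
  unfold NN
  rw [← lintegral_add_left (by fun_prop), ← lintegral_const_mul' _ _ ENNReal.ofReal_ne_top]
  apply lintegral_mono
  intro z
  simp only
  rw [← ENNReal.ofReal_add (by positivity) (by positivity), ← ENNReal.ofReal_mul (by positivity)]
  exact ENNReal.ofReal_le_ofReal (norm_add_rpow_le hq _ _)

theorem NN_mul_le {q : ℝ} (hq : 0 ≤ q) {u v : ℂ → ℂ} {M : ℝ}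
    (hM : ∀ z ∈ ball (0 : ℂ) 1, ‖u z‖ ≤ M) :
    NN q (fun z => u z * v z) ≤ ENNReal.ofReal (M ^ q) * NN q v := by
  rw [NN_eq, NN_eq, ← lintegral_const_mul' _ _ ENNReal.ofReal_ne_top]
  apply setLIntegral_mono' measurableSet_ball
  intro z hz
  rw [mul_left_comm]
  gcongr
  have hM0 : 0 ≤ M := (norm_nonneg _).trans (hM z hz)
  rw [← ENNReal.ofReal_mul (by positivity), norm_mul, Real.mul_rpow (norm_nonneg _) (norm_nonneg _)]
  apply ENNReal.ofReal_le_ofReal
  gcongr
  exact hM z hz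

/-- `H` is in the closure of the polynomial multiples of `ff a`. -/
def App (q : ℝ) (H : ℂ → ℂ) (a : ℝ) : Prop :=
  ∀ ε : ℝ≥0∞, 0 < ε → ∃ P : ℂ[X], NN q (fun z => P.eval z * ff a z - H z) ≤ ε

theorem dct {a b q : ℝ} (ha : 0 ≤ a) (hb : 0 ≤ b) (hq : 0 < q) (h : (a / 8 + b) * q ≤ 1) :
    Tendsto (fun n : ℕ => NN q (fun z => gg b (1 / ((n : ℝ) + 1)) z * ff a z - ff (a - b) z))
      atTop (𝓝 0) := by
  simp_rw [NN_eq]
  have h0 : (0 : ℝ≥0∞) = ∫⁻ w in ball (0 : ℂ) 1, (fun _ => 0) w := by simp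
  rw [h0]
  apply tendsto_lintegral_of_dominated_convergence
    (fun _ => ENNReal.ofReal (2 ^ q * 2))
  · intro n
    apply Measurable.mul measurable_wt.ennreal_ofReal
    apply Measurable.ennreal_ofReal
    have := ((measurable_gg b (1 / ((n : ℝ) + 1))).mul (measurable_ff a)).sub
      (measurable_ff (a - b))
    exact this.norm.pow_const q
  · intro n
    filter_upwards [ae_restrict_mem measurableSet_ball] with z hz
    have hz' := mem_ball_zero_iff.mp hz
    rw [← ENNReal.ofReal_mul (wt_nonneg z)]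
    apply ENNReal.ofReal_le_ofReal
    have h1 := norm_sub_rpow_le hq.le (gg b (1 / ((n : ℝ) + 1)) z * ff a z) (ff (a - b) z)
    have h2 := gf_bound (t := 1 / ((n : ℝ) + 1)) ha hb (by positivity) hq.le h hz'
    have h3 := gf_bound (t := 0) ha hb le_rfl hq.le h hz'
    rw [← ff_sub] at h3
    calc wt z * ‖gg b (1 / ((n : ℝ) + 1)) z * ff a z - ff (a - b) z‖ ^ q
        ≤ wt z * (2 ^ q * (‖gg b (1 / ((n : ℝ) + 1)) z * ff a z‖ ^ q + ‖ff (a - b) z‖ ^ q)) :=
          mul_le_mul_of_nonneg_left h1 (wt_nonneg z)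
      _ = 2 ^ q * (‖gg b (1 / ((n : ℝ) + 1)) z * ff a z‖ ^ q * wt z +
            ‖ff (a - b) z‖ ^ q * wt z) := by ring
      _ ≤ 2 ^ q * (1 + 1) := by gcongr
      _ = 2 ^ q * 2 := by ring
  · rw [lintegral_const, Measure.restrict_apply_univ, vol_ball]
    exact ENNReal.mul_ne_top ENNReal.ofReal_ne_top ENNReal.ofReal_ne_top
  · filter_upwards [ae_restrict_mem measurableSet_ball] with z hz
    have hz' := mem_ball_zero_iff.mp hz
    have h1 : Tendsto (fun n : ℕ => gg b (1 / ((n : ℝ) + 1)) z) atTop (𝓝 (gg b 0 z)) := by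
      have h2 : ContinuousAt (fun t : ℝ => gg b t z) 0 := by
        unfold gg
        have h3 : (1 - z + ((0 : ℝ) : ℂ)) ≠ 0 := by
          simpa using one_sub_ne hz'
        fun_prop (disch := simpa using h3)
      exact h2.tendsto.comp tendsto_one_div_add_atTop_nhds_zero_nat
    have h2 : Tendsto (fun n : ℕ => gg b (1 / ((n : ℝ) + 1)) z * ff a z - ff (a - b) z) atTop
        (𝓝 0) := by
      have := (h1.mul_const (ff a z)).sub_const (ff (a - b) z)
      rwa [← ff_sub, sub_self] at this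
    have h3 : Tendsto (fun n : ℕ =>
        ENNReal.ofReal (‖gg b (1 / ((n : ℝ) + 1)) z * ff a z - ff (a - b) z‖ ^ q)) atTop
        (𝓝 0) := by
      have h4 := (h2.norm.rpow_const (Or.inr hq.le) : Tendsto _ _ (𝓝 (‖(0 : ℂ)‖ ^ q)))
      rw [norm_zero, Real.zero_rpow hq.ne'] at h4
      have := (ENNReal.continuous_ofReal.tendsto 0).comp h4
      simpa [Function.comp_def] using this
    have h4 := ENNReal.Tendsto.const_mul (a := ENNReal.ofReal (wt z)) h3
      (Or.inr ENNReal.ofReal_ne_top)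
    simpa using h4

theorem app_step {a b q : ℝ} (ha : 0 ≤ a) (hb : 0 ≤ b) (hq : 0 < q) (h : (a / 8 + b) * q ≤ 1) :
    App q (ff (a - b)) a := by
  intro ε hε
  have h2q : ENNReal.ofReal (2 ^ q) ≠ ∞ := ENNReal.ofReal_ne_top
  have h2q0 : ENNReal.ofReal (2 ^ q) ≠ 0 := by
    rw [Ne, ENNReal.ofReal_eq_zero, not_le]; positivity
  set η : ℝ≥0∞ := ε / (2 * ENNReal.ofReal (2 ^ q)) with hη
  have hηpos : 0 < η := by
    rw [hη]
    exact ENNReal.div_pos hε.ne' (ENNReal.mul_ne_top (by norm_num) h2q)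
  -- choose the shift
  obtain ⟨n, hn⟩ := ((dct ha hb hq h).eventually (gt_mem_nhds hηpos)).exists
  -- choose the polynomial
  have hlim : Tendsto (fun δ : ℝ => ENNReal.ofReal (δ ^ q) * ENNReal.ofReal π) (𝓝[>] 0) (𝓝 0) := by
    have h1 : Tendsto (fun δ : ℝ => δ ^ q) (𝓝[>] 0) (𝓝 0) := by
      have h2 : ContinuousAt (fun δ : ℝ => δ ^ q) 0 :=
        Real.continuousAt_rpow_const _ _ (Or.inr hq.le)
      have h3 := h2.tendsto
      rw [Real.zero_rpow hq.ne'] at h3
      exact h3.mono_left nhdsWithin_le_nhds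
    have h2 := (ENNReal.continuous_ofReal.tendsto 0).comp h1
    rw [ENNReal.ofReal_zero] at h2
    have h3 := ENNReal.Tendsto.mul_const (b := ENNReal.ofReal π) h2
      (Or.inr ENNReal.ofReal_ne_top)
    rwa [zero_mul] at h3
  obtain ⟨δ, hδ1, hδ⟩ := ((hlim.eventually (gt_mem_nhds hηpos)).and self_mem_nhdsWithin).exists
  obtain ⟨P, hP⟩ := poly_approx b (t := 1 / ((n : ℝ) + 1)) (ε := δ) (by positivity) hδ
  refine ⟨P, ?_⟩
  have h1 : NN q (fun z => P.eval z * ff a z - gg b (1 / ((n : ℝ) + 1)) z * ff a z) ≤ η := by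
    have h2 : NN q (fun z => (P.eval z - gg b (1 / ((n : ℝ) + 1)) z) * ff a z) ≤
        ENNReal.ofReal (δ ^ q) * NN q (ff a) := NN_mul_le hq.le hP
    have h3 : NN q (ff a) ≤ ENNReal.ofReal π := by
      apply NN_ff_le ha hq
      have : 0 ≤ b * q := by positivity
      linarith
    calc NN q (fun z => P.eval z * ff a z - gg b (1 / ((n : ℝ) + 1)) z * ff a z)
        = NN q (fun z => (P.eval z - gg b (1 / ((n : ℝ) + 1)) z) * ff a z) := by
          congr 1; funext z; ring
      _ ≤ ENNReal.ofReal (δ ^ q) * NN q (ff a) := h2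
      _ ≤ ENNReal.ofReal (δ ^ q) * ENNReal.ofReal π := by gcongr
      _ ≤ η := hδ1.le
  have hmeas : Measurable (fun z => P.eval z * ff a z - gg b (1 / ((n : ℝ) + 1)) z * ff a z) := by
    have h2 : Measurable (fun z : ℂ => P.eval z) := P.continuous.measurable
    exact (h2.mul (measurable_ff a)).sub ((measurable_gg b _).mul (measurable_ff a))
  calc NN q (fun z => P.eval z * ff a z - ff (a - b) z)
      = NN q (fun z => (P.eval z * ff a z - gg b (1 / ((n : ℝ) + 1)) z * ff a z) +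
          (gg b (1 / ((n : ℝ) + 1)) z * ff a z - ff (a - b) z)) := by
        congr 1; funext z; ring
    _ ≤ ENNReal.ofReal (2 ^ q) * (NN q (fun z => P.eval z * ff a z -
          gg b (1 / ((n : ℝ) + 1)) z * ff a z) +
          NN q (fun z => gg b (1 / ((n : ℝ) + 1)) z * ff a z - ff (a - b) z)) :=
        NN_add_le hq.le hmeas
    _ ≤ ENNReal.ofReal (2 ^ q) * (η + η) := by gcongr
    _ = ε := by
        rw [← two_mul, hη]
        rw [← mul_assoc, mul_comm (ENNReal.ofReal (2 ^ q)) 2]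
        exact ENNReal.mul_div_cancel (mul_ne_zero (by norm_num) h2q0)
          (ENNReal.mul_ne_top (by norm_num) h2q)

theorem app_trans {a c q : ℝ} (hq : 0 < q) (h1 : App q (ff c) a)
    (h2 : App q (fun _ => 1) c) : App q (fun _ => 1) a := by
  intro ε hε
  have h2q : ENNReal.ofReal (2 ^ q) ≠ ∞ := ENNReal.ofReal_ne_top
  have h2q0 : ENNReal.ofReal (2 ^ q) ≠ 0 := by
    rw [Ne, ENNReal.ofReal_eq_zero, not_le]; positivity
  set η : ℝ≥0∞ := ε / (2 * ENNReal.ofReal (2 ^ q)) with hη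
  have hηpos : 0 < η := by
    rw [hη]
    exact ENNReal.div_pos hε.ne' (ENNReal.mul_ne_top (by norm_num) h2q)
  obtain ⟨P, hP⟩ := h2 η hηpos
  -- bound for `P`
  obtain ⟨M, hM⟩ := (isCompact_closedBall (0 : ℂ) 1).exists_bound_of_continuousOn
    (f := fun z : ℂ => P.eval z) P.continuous.continuousOn
  set M' : ℝ := max M 1 with hM'
  have hM'pos : 0 < M' := lt_of_lt_of_le one_pos (le_max_right _ _)
  have hMq : ENNReal.ofReal (M' ^ q) ≠ ∞ := ENNReal.ofReal_ne_top
  have hMq0 : ENNReal.ofReal (M' ^ q) ≠ 0 := by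
    rw [Ne, ENNReal.ofReal_eq_zero, not_le]; positivity
  obtain ⟨R, hR⟩ := h1 (η / ENNReal.ofReal (M' ^ q)) (ENNReal.div_pos hηpos.ne' hMq)
  refine ⟨P * R, ?_⟩
  have h3 : NN q (fun z => P.eval z * (R.eval z * ff a z - ff c z)) ≤ η := by
    calc NN q (fun z => P.eval z * (R.eval z * ff a z - ff c z))
        ≤ ENNReal.ofReal (M' ^ q) * NN q (fun z => R.eval z * ff a z - ff c z) := by
          apply NN_mul_le hq.le
          intro z hz
          exact (hM z (ball_subset_closedBall hz)).trans (le_max_left _ _)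
      _ ≤ ENNReal.ofReal (M' ^ q) * (η / ENNReal.ofReal (M' ^ q)) := by gcongr
      _ = η := ENNReal.mul_div_cancel hMq0 hMq
  have hmeas : Measurable (fun z => P.eval z * (R.eval z * ff a z - ff c z)) := by
    have h4 : Measurable (fun z : ℂ => P.eval z) := P.continuous.measurable
    have h5 : Measurable (fun z : ℂ => R.eval z) := R.continuous.measurable
    exact h4.mul ((h5.mul (measurable_ff a)).sub (measurable_ff c))
  calc NN q (fun z => (P * R).eval z * ff a z - 1)
      = NN q (fun z => P.eval z * (R.eval z * ff a z - ff c z) + (P.eval z * ff c z - 1)) := by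
        congr 1; funext z; rw [Polynomial.eval_mul]; ring
    _ ≤ ENNReal.ofReal (2 ^ q) * (NN q (fun z => P.eval z * (R.eval z * ff a z - ff c z)) +
          NN q (fun z => P.eval z * ff c z - 1)) := NN_add_le hq.le hmeas
    _ ≤ ENNReal.ofReal (2 ^ q) * (η + η) := by gcongr
    _ = ε := by
        rw [← two_mul, hη]
        rw [← mul_assoc, mul_comm (ENNReal.ofReal (2 ^ q)) 2]
        exact ENNReal.mul_div_cancel (mul_ne_zero (by norm_num) h2q0)
          (ENNReal.mul_ne_top (by norm_num) h2q)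

theorem app_zero {q : ℝ} (hq : 0 < q) : App q (fun _ => 1) 0 := by
  intro ε _
  refine ⟨1, ?_⟩
  have : (fun z : ℂ => (1 : ℂ[X]).eval z * ff 0 z - 1) = fun _ => 0 := by
    funext z
    simp [ff]
  rw [this]
  simp [NN, Real.zero_rpow hq.ne']

/-- The whole range `a q < 8`. -/
theorem app_one {A q : ℝ} (hA : 0 ≤ A) (hq : 0 < q) (h : A / 8 * q < 1) :
    App q (fun _ => 1) A := by
  obtain ⟨N, hN⟩ := exists_nat_gt (A * q / (1 - A / 8 * q))
  have h1 : 0 < 1 - A / 8 * q := by linarith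
  have hNpos : (0 : ℝ) < N := lt_of_le_of_lt (by positivity) hN
  set b : ℝ := A / N with hb
  have hb0 : 0 ≤ b := by positivity
  have hbq : b * q ≤ 1 - A / 8 * q := by
    rw [div_lt_iff₀ h1] at hN
    rw [hb, div_mul_eq_mul_div, div_le_iff₀ hNpos]
    linarith
  have key : ∀ k : ℕ, k ≤ N → App q (fun _ => 1) (k * b) := by
    intro k
    induction k with
    | zero =>
      intro _
      simpa using app_zero hq
    | succ k ih =>
      intro hk
      have h2 := ih (by omega)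
      have hk' : ((k + 1 : ℕ) : ℝ) ≤ N := by exact_mod_cast hk
      have h3 : ((k + 1 : ℕ) : ℝ) * b ≤ A := by
        calc ((k + 1 : ℕ) : ℝ) * b ≤ N * b := mul_le_mul_of_nonneg_right hk' hb0
          _ = A := by rw [hb]; field_simp
      have h4 : App q (ff (((k + 1 : ℕ) : ℝ) * b - b)) (((k + 1 : ℕ) : ℝ) * b) := by
        apply app_step (by positivity) hb0 hq
        have h5 : ((k + 1 : ℕ) : ℝ) * b / 8 * q ≤ A / 8 * q := by gcongr
        linarith
      have h6 : ((k + 1 : ℕ) : ℝ) * b - b = k * b := by push_cast; ring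
      rw [h6] at h4
      exact app_trans hq h4 h2
  have h7 := key N le_rfl
  have h8 : (N : ℝ) * b = A := by rw [hb]; field_simp
  rwa [h8] at h7

theorem wi_of_app {q a : ℝ} (hq : 0 < q) (h : App q (fun _ => 1) a) :
    WeaklyInvertible mu0 q (ff a) := by
  have h1 : ∀ n : ℕ, ∃ P : ℂ[X], NN q (fun z => P.eval z * ff a z - 1) ≤ ((n : ℝ≥0∞) + 1)⁻¹ := by
    intro n
    apply h
    simp
  choose P hP using h1
  refine ⟨P, ?_⟩
  have hlim : Tendsto (fun n : ℕ => (CC * ((n : ℝ≥0∞) + 1)⁻¹) ^ (1 / q)) atTop (𝓝 0) := by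
    have h2 : Tendsto (fun n : ℕ => ((n : ℝ≥0∞) + 1)⁻¹) atTop (𝓝 0) := by
      have h3 := (ENNReal.tendsto_inv_nat_nhds_zero).comp (tendsto_add_atTop_nat 1)
      refine h3.congr fun n => ?_
      simp
    have h3 := ENNReal.Tendsto.const_mul (a := CC) h2 (Or.inr CC_ne_top)
    have h4 := (ENNReal.continuous_rpow_const (y := 1 / q)).tendsto (CC * 0)
    have h5 := h4.comp h3
    rw [mul_zero, ENNReal.zero_rpow_of_pos (by positivity)] at h5
    exact h5
  apply tendsto_of_tendsto_of_tendsto_of_le_of_le tendsto_const_nhds hlim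
  · intro n
    exact zero_le
  · intro n
    have hdiff : DifferentiableOn ℂ (fun z => (P n).eval z * ff a z - 1) (ball 0 1) :=
      ((P n).differentiable.differentiableOn.mul (ff_diffOn a)).sub_const 1
    refine (pnorm_le hdiff hq).trans ?_
    exact ENNReal.rpow_le_rpow (by gcongr; exact hP n) (by positivity)

end Pool.Agent.Lib.MP_d61770_an
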