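import Mathlib

set_option autoImplicit false

namespace Pool.Agent.Lib.MP_d61770_an

open MeasureTheory Filter Topology Metric Set
open scoped ENNReal Polynomial

/-- The measure `dμ(r,θ) = (2π)⁻¹ dν(r) dθ` on `ℂ`, in polar coordinates (`θ` runs over
`(-π, π)`). -/
noncomputable def polar (ν : Measure ℝ) : Measure ℂ :=
  (ENNReal.ofReal (2 * Real.pi))⁻¹ •
    (ν.prod (volume.restrict (Ioo (-Real.pi) Real.pi))).map
      (fun x : ℝ × ℝ => (x.1 : ℂ) * Complex.exp (x.2 * Complex.I))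

/-- Symmetric measures on the closed unit disc: `μ = polar ν` with `ν` a finite Borel measure
carried by `[0,1]`, `ν {0} = 0` and `ν [r,1] > 0` for all `0 ≤ r < 1`. -/
def IsSymm (μ : Measure ℂ) : Prop :=
  ∃ ν : Measure ℝ, IsFiniteMeasure ν ∧ ν (Icc 0 1)ᶜ = 0 ∧ ν {0} = 0 ∧
    (∀ r : ℝ, 0 ≤ r → r < 1 → 0 < ν (Icc r 1)) ∧ μ = polar ν

/-- `M_p(r;f;μ)`. -/
noncomputable def mean (μ : Measure ℂ) (p r : ℝ) (f : ℂ → ℂ) : ℝ≥0∞ :=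
  (∫⁻ w, ENNReal.ofReal (‖f (r * w)‖ ^ p) ∂μ) ^ (1 / p)

/-- `‖f‖_{p,μ} = sup_{0 ≤ r < 1} M_p(r;f;μ)`. -/
noncomputable def pnorm (μ : Measure ℂ) (p : ℝ) (f : ℂ → ℂ) : ℝ≥0∞ :=
  ⨆ r ∈ Ico (0 : ℝ) 1, mean μ p r f

/-- `f ∈ E^p(μ)`. -/
def MemE (μ : Measure ℂ) (p : ℝ) (f : ℂ → ℂ) : Prop :=
  DifferentiableOn ℂ f (ball 0 1) ∧ pnorm μ p f < ∞

/-- `f` is weakly invertible in `E^p(μ)`: some polynomials `P n` satisfy
`‖P n · f - 1‖_{p,μ} → 0`. -/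
def WeaklyInvertible (μ : Measure ℂ) (p : ℝ) (f : ℂ → ℂ) : Prop :=
  ∃ P : ℕ → ℂ[X], Tendsto (fun n => pnorm μ p (fun z => (P n).eval z * f z - 1)) atTop (𝓝 0)

/-- The radial weight `exp(-(1-|z|)⁻²)`. -/
noncomputable def wt (z : ℂ) : ℝ := Real.exp (-(1 / (1 - ‖z‖) ^ 2))

/-- The measure `exp(-(1-|z|)⁻²) dA` on the unit disc. -/
noncomputable def mu0 : Measure ℂ :=
  (volume.restrict (ball (0 : ℂ) 1)).withDensity (fun z => ENNReal.ofReal (wt z))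

/-- The functions `exp(-a (1-z)⁻²)`. -/
noncomputable def ff (a : ℝ) (z : ℂ) : ℂ := Complex.exp (-(a / (1 - z) ^ 2))

end Pool.Agent.Lib.MP_d61770_an
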