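import Pool.Agent.Lib.MP_d61770_an.Basic

/-!
# Sub-mean value inequality for `|F|^p`, all `p > 0`
-/

set_option autoImplicit false

namespace Pool.Agent.Lib.MP_d61770_an

open MeasureTheory Filter Topology Metric Set
open scoped ENNReal Polynomial Real

theorem circle_sub {F : ℂ → ℂ} {c : ℂ} {r : ℝ} (hr : 0 < r)
    (hF : AnalyticOnNhd ℂ F (closedBall c r)) {p : ℝ} (hp : 0 < p) :
    ‖F c‖ ^ p ≤ Real.circleAverage (fun z => ‖F z‖ ^ p) c r := by
  have hr' : |r| = r := abs_of_pos hr
  have hcont : ContinuousOn (fun z => ‖F z‖ ^ p) (sphere c |r|) := by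
    rw [hr']
    apply ContinuousOn.rpow_const
    · exact (hF.continuousOn.mono sphere_subset_closedBall).norm
    · intro x _
      right
      exact hp.le
  have hint : CircleIntegrable (fun z => ‖F z‖ ^ p) c r := hcont.circleIntegrable'
  by_cases h0 : F c = 0
  · rw [h0, norm_zero, Real.zero_rpow hp.ne']
    exact Real.circleAverage_nonneg_of_nonneg fun z _ => by positivity
  · set a : ℝ := p * Real.log ‖F c‖ with ha
    have hJ : Real.log ‖F c‖ ≤ Real.circleAverage (fun z => Real.log ‖F z‖) c r := by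
      rw [AnalyticOnNhd.circleAverage_log_norm hr.ne' (by rwa [hr']) h0]
      have : 0 ≤ ∑ᶠ u, (MeromorphicOn.divisor F (closedBall c |r|) u : ℝ) *
          Real.log (r * ‖c - u‖⁻¹) := by
        apply finsum_nonneg
        intro u
        by_cases hu : u ∈ closedBall c |r|
        · rw [hr'] at hu ⊢
          rw [mem_closedBall, dist_comm, dist_eq_norm] at hu
          rcases eq_or_ne (‖c - u‖) 0 with h | h
          · rw [h]; simp
          · apply mul_nonneg
            · exact_mod_cast (MeromorphicOn.AnalyticOnNhd.divisor_nonneg hF) u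
            · apply Real.log_nonneg
              rw [← div_eq_mul_inv, one_le_div (lt_of_le_of_ne (norm_nonneg _) (Ne.symm h))]
              exact hu
        · rw [Function.locallyFinsuppWithin.apply_eq_zero_of_notMem _ hu]
          simp
      linarith
    have hlint : CircleIntegrable (fun z => Real.log ‖F z‖) c r := by
      apply MeromorphicOn.circleIntegrable_log_norm
      rw [hr']
      exact fun z hz => (hF z (sphere_subset_closedBall hz)).meromorphicAt
    set f₂ : ℂ → ℝ := fun z => Real.exp a * (1 + p * Real.log ‖F z‖ - a) with hf₂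
    set f₁ : ℂ → ℝ := fun z => if F z = 0 then 0 else Real.exp a * (1 + p * Real.log ‖F z‖ - a)
      with hf₁
    have hf₂int : CircleIntegrable f₂ c r := by
      have h1 : CircleIntegrable (fun z => p * Real.log ‖F z‖) c r := by
        have := hlint.const_smul (a := p)
        simpa [Pi.smul_def] using this
      have h2 : CircleIntegrable (fun z => (1 - a) + p * Real.log ‖F z‖) c r :=
        (circleIntegrable_const _ _ _).add h1
      have h3 := h2.const_smul (a := Real.exp a)
      have h4 : f₂ = (Real.exp a • fun z => (1 - a) + p * Real.log ‖F z‖) := by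
        funext z
        simp only [hf₂, Pi.smul_apply, smul_eq_mul]
        ring
      rw [h4]
      exact h3
    have hcod : ∀ᶠ z in codiscreteWithin (sphere c |r|), F z ≠ 0 := by
      rw [hr']
      have h1 := AnalyticOnNhd.eqOn_zero_or_eventually_ne_zero_of_preconnected hF
        (convex_closedBall c r).isPreconnected
      rcases h1 with h1 | h1
      · exact absurd (h1 (mem_closedBall_self hr.le)) h0
      · exact Filter.codiscreteWithin_mono sphere_subset_closedBall h1
    have heq : f₂ =ᶠ[codiscreteWithin (sphere c |r|)] f₁ := by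
      filter_upwards [hcod] with z hz
      simp only [hf₁, hf₂, if_neg hz]
    have hf₁int : CircleIntegrable f₁ c r := hf₂int.congr_codiscreteWithin heq
    have hle : Real.circleAverage f₁ c r ≤ Real.circleAverage (fun z => ‖F z‖ ^ p) c r := by
      apply Real.circleAverage_mono hf₁int hint
      intro z _
      simp only [hf₁]
      split_ifs with h
      · positivity
      · have hpos : 0 < ‖F z‖ := norm_pos_iff.mpr h
        rw [Real.rpow_def_of_pos hpos]
        have h1 := Real.add_one_le_exp (Real.log ‖F z‖ * p - a)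
        calc Real.exp a * (1 + p * Real.log ‖F z‖ - a)
            = Real.exp a * ((Real.log ‖F z‖ * p - a) + 1) := by ring
          _ ≤ Real.exp a * Real.exp (Real.log ‖F z‖ * p - a) :=
              mul_le_mul_of_nonneg_left h1 (Real.exp_pos _).le
          _ = Real.exp (Real.log ‖F z‖ * p) := by
              rw [← Real.exp_add]; congr 1; ring
    have hav : Real.circleAverage f₂ c r =
        Real.exp a * ((1 - a) + p * Real.circleAverage (fun z => Real.log ‖F z‖) c r) := by
      have h1 : CircleIntegrable (fun z => p * Real.log ‖F z‖) c r := by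
        have := hlint.const_smul (a := p)
        simpa [Pi.smul_def] using this
      have h4 : f₂ = fun z => Real.exp a • ((1 - a) + p • Real.log ‖F z‖) := by
        funext z
        simp only [hf₂, smul_eq_mul]
        ring
      rw [h4, Real.circleAverage_fun_smul, Real.circleAverage_fun_add
        (circleIntegrable_const _ _ _) (by simpa using h1), Real.circleAverage_const,
        Real.circleAverage_fun_smul]
      simp
    have hFc : ‖F c‖ ^ p = Real.exp a := by
      rw [Real.rpow_def_of_pos (norm_pos_iff.mpr h0), ha]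
      congr 1
      ring
    rw [hFc]
    refine le_trans ?_ hle
    rw [← Real.circleAverage_congr_codiscreteWithin heq hr.ne', hav]
    have h5 : 1 ≤ (1 - a) + p * Real.circleAverage (fun z => Real.log ‖F z‖) c r := by
      have := mul_le_mul_of_nonneg_left hJ hp.le
      linarith
    calc Real.exp a = Real.exp a * 1 := (mul_one _).symm
      _ ≤ _ := mul_le_mul_of_nonneg_left h5 (Real.exp_pos _).le

theorem circle_sub2 {F : ℂ → ℂ} {c : ℂ} {r : ℝ} (hr : 0 < r)
    (hF : AnalyticOnNhd ℂ F (closedBall c r)) {p : ℝ} (hp : 0 < p) :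
    2 * π * ‖F c‖ ^ p ≤
      ∫ θ in Ioo (-π) π, ‖F (c + Complex.polarCoord.symm (r, θ))‖ ^ p := by
  have h2 := circle_sub hr hF hp
  have h3 : ∀ θ : ℝ, ‖F (c + Complex.polarCoord.symm (r, θ))‖ ^ p =
      ‖F (circleMap c r θ)‖ ^ p := by
    intro θ
    congr 3
    rw [Complex.polarCoord_symm_apply, circleMap, Complex.exp_mul_I]
    simp
  simp_rw [h3]
  rw [← integral_Ioc_eq_integral_Ioo, ← intervalIntegral.integral_of_le (by linarith [Real.pi_pos])]
  have h4 : Function.Periodic (fun θ => ‖F (circleMap c r θ)‖ ^ p) (2 * π) := by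
    intro θ
    simp [(periodic_circleMap c r) θ]
  have h5 := h4.intervalIntegral_add_eq (-π) 0
  rw [show (-π) + 2 * π = π by ring, zero_add] at h5
  rw [h5]
  rw [Real.circleAverage_def, smul_eq_mul, inv_mul_eq_div, le_div_iff₀ (by positivity)] at h2
  linarith

theorem disc_sub {F : ℂ → ℂ} {c : ℂ} {ρ ε : ℝ} (hρ : 0 < ρ) (hε : ρ < ε)
    (hF : DifferentiableOn ℂ F (ball c ε)) {p : ℝ} (hp : 0 < p) :
    (π * ρ ^ 2) * ‖F c‖ ^ p ≤ ∫ x in ball c ρ, ‖F x‖ ^ p := by
  have han : ∀ r < ε, AnalyticOnNhd ℂ F (closedBall c r) := fun r hr =>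
    (hF.analyticOnNhd isOpen_ball).mono (closedBall_subset_ball hr)
  have hcont : ContinuousOn (fun x => ‖F x‖ ^ p) (closedBall c ρ) :=
    (han ρ hε).continuousOn.norm.rpow_const fun _ _ => Or.inr hp.le
  rw [← integral_indicator measurableSet_ball, ← integral_add_left_eq_self _ c]
  rw [← Complex.integral_comp_polarCoord_symm]
  have h1 : ∀ q ∈ polarCoord.target, q.1 • (ball c ρ).indicator (fun x => ‖F x‖ ^ p)
        (c + Complex.polarCoord.symm q) =
      (Ioo 0 ρ ×ˢ Ioo (-π) π).indicator
        (fun q => q.1 • ‖F (c + Complex.polarCoord.symm q)‖ ^ p) q := by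
    intro q hq
    have hq1 : 0 < q.1 := hq.1
    by_cases h : q.1 < ρ
    · rw [indicator_of_mem, indicator_of_mem]
      · exact ⟨⟨hq1, h⟩, hq.2⟩
      · rw [mem_ball, dist_eq_norm, add_sub_cancel_left, Complex.norm_polarCoord_symm,
          abs_of_pos hq1]
        exact h
    · rw [indicator_of_notMem, indicator_of_notMem, smul_zero]
      · exact fun h' => h h'.1.2
      · rw [mem_ball, dist_eq_norm, add_sub_cancel_left, Complex.norm_polarCoord_symm,
          abs_of_pos hq1]
        exact h
  rw [setIntegral_congr_fun (polarCoord.open_target.measurableSet) h1]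
  rw [setIntegral_indicator (measurableSet_Ioo.prod measurableSet_Ioo)]
  have h2 : polarCoord.target ∩ Ioo 0 ρ ×ˢ Ioo (-π) π = Ioo 0 ρ ×ˢ Ioo (-π) π := by
    apply inter_eq_right.mpr
    intro q hq
    exact ⟨hq.1.1, hq.2⟩
  rw [h2]
  have hint : IntegrableOn (fun q : ℝ × ℝ => q.1 • ‖F (c + Complex.polarCoord.symm q)‖ ^ p)
      (Ioo 0 ρ ×ˢ Ioo (-π) π) := by
    have : ContinuousOn (fun q : ℝ × ℝ => q.1 • ‖F (c + Complex.polarCoord.symm q)‖ ^ p)
        (Icc 0 ρ ×ˢ Icc (-π) π) := by
      apply continuousOn_fst.smul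
      apply hcont.comp
      · simp_rw [Complex.polarCoord_symm_apply]
        fun_prop
      · intro q hq
        rw [mem_closedBall, dist_eq_norm, add_sub_cancel_left, Complex.norm_polarCoord_symm,
          abs_of_nonneg hq.1.1]
        exact hq.1.2
    exact (this.integrableOn_compact (isCompact_Icc.prod isCompact_Icc)).mono_set
      (prod_mono Ioo_subset_Icc_self Ioo_subset_Icc_self)
  rw [Measure.volume_eq_prod] at hint ⊢
  rw [setIntegral_prod _ hint]
  have h3 : ∀ r ∈ Ioo 0 ρ, r * (2 * π * ‖F c‖ ^ p) ≤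
      ∫ θ in Ioo (-π) π, r • ‖F (c + Complex.polarCoord.symm (r, θ))‖ ^ p := by
    intro r hr
    rw [integral_smul, smul_eq_mul]
    exact mul_le_mul_of_nonneg_left (circle_sub2 hr.1 (han r (hr.2.trans hε)) hp) hr.1.le
  have h4 : ∫ r in Ioo 0 ρ, r * (2 * π * ‖F c‖ ^ p) = (π * ρ ^ 2) * ‖F c‖ ^ p := by
    rw [integral_mul_const, ← integral_Ioc_eq_integral_Ioo,
      ← intervalIntegral.integral_of_le hρ.le, integral_id]
    ring
  rw [← h4]
  apply setIntegral_mono_on _ _ measurableSet_Ioo h3
  · have : ContinuousOn (fun r : ℝ => r * (2 * π * ‖F c‖ ^ p)) (Icc 0 ρ) := by fun_prop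
    exact (this.integrableOn_compact isCompact_Icc).mono_set Ioo_subset_Icc_self
  · rw [IntegrableOn, ← Measure.prod_restrict] at hint
    exact hint.integral_prod_left

/-- Point evaluations are bounded on `E^p(μ₀)`. -/
theorem point_eval {F : ℂ → ℂ} (hF : DifferentiableOn ℂ F (ball 0 1)) {p : ℝ} (hp : 0 < p)
    {z : ℂ} {δ : ℝ} (hδ : 0 < δ) (hz : ‖z‖ + δ < 1) :
    ENNReal.ofReal (π * δ ^ 2 * ‖F z‖ ^ p) ≤
      ENNReal.ofReal (Real.exp (1 / (1 - ‖z‖ - δ) ^ 2)) * NN p F := by
  have hsub : ball z (1 - ‖z‖) ⊆ ball 0 1 := by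
    intro w hw
    rw [mem_ball, dist_eq_norm] at hw
    rw [mem_ball_zero_iff]
    have := norm_sub_norm_le w z
    linarith
  have h1 := disc_sub hδ (by linarith : δ < 1 - ‖z‖) (hF.mono hsub) hp
  have hcont : ContinuousOn (fun x => ‖F x‖ ^ p) (closedBall z δ) :=
    (hF.continuousOn.mono ((closedBall_subset_ball (by linarith)).trans hsub)).norm.rpow_const
      fun _ _ => Or.inr hp.le
  have hint : IntegrableOn (fun x => ‖F x‖ ^ p) (ball z δ) :=
    (hcont.integrableOn_compact (isCompact_closedBall z δ)).mono_set ball_subset_closedBall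
  refine (ENNReal.ofReal_le_ofReal h1).trans ?_
  rw [ofReal_integral_eq_lintegral_ofReal hint (ae_of_all _ fun x => by positivity)]
  have hball : ball z δ ⊆ ball 0 1 := (ball_subset_ball (by linarith)).trans hsub
  have h2 : NN p F = ∫⁻ w in ball (0 : ℂ) 1,
      ENNReal.ofReal (wt w) * ENNReal.ofReal (‖F w‖ ^ p) := by
    unfold NN mu0
    rw [lintegral_withDensity_eq_lintegral_mul_non_measurable _ (by
      exact measurable_wt.ennreal_ofReal) (ae_of_all _ fun _ => ENNReal.ofReal_lt_top)]
    rfl
  rw [h2, ← lintegral_const_mul' _ _ ENNReal.ofReal_ne_top]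
  refine le_trans ?_ (lintegral_mono_set hball)
  apply setLIntegral_mono' measurableSet_ball
  intro w hw
  rw [← mul_assoc, ← ENNReal.ofReal_mul (Real.exp_pos _).le]
  have h3 : 1 ≤ Real.exp (1 / (1 - ‖z‖ - δ) ^ 2) * wt w := by
    rw [wt, ← Real.exp_add, Real.one_le_exp_iff]
    have h4 : ‖w‖ < ‖z‖ + δ := by
      rw [mem_ball, dist_eq_norm] at hw
      have := norm_sub_norm_le w z
      linarith
    have h5 : 1 / (1 - ‖w‖) ^ 2 ≤ 1 / (1 - ‖z‖ - δ) ^ 2 := by
      have : 0 < 1 - ‖z‖ - δ := by linarith
      exact one_div_le_one_div_of_le (by positivity)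
        (pow_le_pow_left₀ this.le (by linarith) 2)
    linarith
  calc ENNReal.ofReal (‖F w‖ ^ p) = 1 * ENNReal.ofReal (‖F w‖ ^ p) := (one_mul _).symm
    _ ≤ _ := by
        gcongr
        rw [← ENNReal.ofReal_one]
        exact ENNReal.ofReal_le_ofReal h3

end Pool.Agent.Lib.MP_d61770_an
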