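import Pool.Agent.Lib.MP_d61770_an.Cyc

/-!
# `ff (8/p)` is not weakly invertible in `E^p(mu0)`
-/

set_option autoImplicit false

namespace Pool.Agent.Lib.MP_d61770_an

open MeasureTheory Filter Topology Metric Set
open scoped ENNReal Polynomial Real

/-- Real version of the point evaluation estimate. -/
theorem point_real {F : ℂ → ℂ} (hF : DifferentiableOn ℂ F (ball 0 1)) {p : ℝ} (hp : 0 < p)
    {K : ℝ} (hK : 0 ≤ K) (hN : NN p F ≤ ENNReal.ofReal K)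
    {z : ℂ} {δ : ℝ} (hδ : 0 < δ) (hz : ‖z‖ + δ < 1) :
    δ ^ 2 * ‖F z‖ ^ p ≤ Real.exp (1 / (1 - ‖z‖ - δ) ^ 2) * K := by
  have h1 := (point_eval hF hp hδ hz).trans (mul_le_mul_right hN _)
  rw [← ENNReal.ofReal_mul (Real.exp_pos _).le, ENNReal.ofReal_le_ofReal_iff (by positivity)] at h1
  refine le_trans ?_ h1
  have h2 : 0 ≤ δ ^ 2 * ‖F z‖ ^ p := by positivity
  nlinarith [Real.pi_gt_three]

theorem norm_one_sub_sq (ζ : ℂ) : ‖1 - ζ‖ ^ 2 = (1 - ζ.re) ^ 2 + ζ.im ^ 2 := by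
  rw [← Complex.normSq_eq_norm_sq, Complex.normSq_apply]
  simp only [Complex.sub_re, Complex.one_re, Complex.sub_im, Complex.one_im]
  ring

theorem norm_sq (ζ : ℂ) : ‖ζ‖ ^ 2 = ζ.re ^ 2 + ζ.im ^ 2 := by
  rw [← Complex.normSq_eq_norm_sq, Complex.normSq_apply]
  ring

theorem ff_rpow {p : ℝ} (hp : 0 < p) (ζ : ℂ) :
    ‖ff (8 / p) (1 - ζ)‖ ^ p =
      Real.exp (-(8 * (ζ.re ^ 2 - ζ.im ^ 2) / (ζ.re ^ 2 + ζ.im ^ 2) ^ 2)) := by
  rw [norm_ff, ← Real.exp_mul, sub_sub_cancel, Complex.neg_re, re_div_sq]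
  congr 1
  field_simp

theorem exp_inv_norm (A : ℝ) (ζ : ℂ) :
    ‖Complex.exp (-(A / ζ))‖ = Real.exp (-(A * ζ.re / (ζ.re ^ 2 + ζ.im ^ 2))) := by
  rw [Complex.norm_exp, Complex.neg_re, Complex.div_re]
  congr 2
  rw [Complex.normSq_apply]
  simp only [Complex.ofReal_re, Complex.ofReal_im]
  ring

theorem one_le_aux {x : ℝ} (hx : 0 < x) (hx' : x ≤ 1 / 6) :
    1 / (x - 3 * x ^ 2) ^ 2 ≤ 1 / x ^ 2 + 24 / x := by
  have h1 : 0 < 1 - 3 * x := by linarith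
  have h2 : x - 3 * x ^ 2 = x * (1 - 3 * x) := by ring
  rw [h2, mul_pow, div_add_div _ _ (by positivity) (by positivity),
    div_le_div_iff₀ (by positivity) (by positivity)]
  have h3 : 1 ≤ 4 * (1 - 3 * x) ^ 2 := by nlinarith
  have h4 : 0 < x ^ 3 := by positivity
  have h5 : (1 - 3 * x) ^ 2 = 1 - 6 * x + 9 * x ^ 2 := by ring
  have h6 : 0 ≤ x ^ 3 * ((1 + 24 * x) * (1 - 3 * x) ^ 2 - 1) := by
    apply mul_nonneg h4.le
    nlinarith [mul_pos hx h1, sq_nonneg x, mul_nonneg hx.le (sq_nonneg (1 - 3 * x))]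
  nlinarith

/-- Bound on the two critical rays. -/
theorem ray_bound {P : ℂ[X]} {p : ℝ} (hp : 0 < p) {K : ℝ} (hK : 0 ≤ K)
    (hN : NN p (fun z => P.eval z * ff (8 / p) z) ≤ ENNReal.ofReal K) {ζ : ℂ}
    (hx : 0 < ζ.re) (hx' : ζ.re ≤ 1 / 6) (hy : ζ.im ^ 2 = 3 * ζ.re ^ 2) :
    ‖P.eval (1 - ζ) * Complex.exp (-((100 / p : ℝ) / ζ))‖ ^ p ≤ 24 * K := by
  set x := ζ.re with hxdef
  have hdiff : DifferentiableOn ℂ (fun z => P.eval z * ff (8 / p) z) (ball 0 1) :=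
    P.differentiable.differentiableOn.mul (ff_diffOn _)
  have hz : ‖1 - ζ‖ ≤ 1 - x + 2 * x ^ 2 := by
    apply le_of_sq_le_sq _ (by nlinarith)
    rw [norm_one_sub_sq, hy]
    nlinarith [sq_nonneg (x * (1 - 2 * x))]
  have hpos : 0 < x - 3 * x ^ 2 := by nlinarith
  have h1 := point_real hdiff hp hK hN (z := 1 - ζ) (δ := x ^ 2) (by positivity) (by nlinarith)
  have h2 : Real.exp (1 / (1 - ‖1 - ζ‖ - x ^ 2) ^ 2) ≤ Real.exp (1 / x ^ 2 + 24 / x) := by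
    rw [Real.exp_le_exp]
    refine le_trans ?_ (one_le_aux hx hx')
    exact one_div_le_one_div_of_le (by positivity)
      (pow_le_pow_left₀ hpos.le (by linarith) 2)
  have h3 := h1.trans (mul_le_mul_of_nonneg_right h2 hK)
  have hf : ‖ff (8 / p) (1 - ζ)‖ ^ p = Real.exp (1 / x ^ 2) := by
    rw [ff_rpow hp, hy]
    congr 1
    field_simp
    ring
  rw [norm_mul, Real.mul_rpow (norm_nonneg _) (norm_nonneg _), hf, Real.exp_add] at h3
  have h4 : (x ^ 2) ^ 2 * ‖P.eval (1 - ζ)‖ ^ p ≤ Real.exp (24 / x) * K := by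
    have h5 := Real.exp_pos (1 / x ^ 2)
    have h6 : Real.exp (1 / x ^ 2) * ((x ^ 2) ^ 2 * ‖P.eval (1 - ζ)‖ ^ p) ≤
        Real.exp (1 / x ^ 2) * (Real.exp (24 / x) * K) := by linarith
    exact le_of_mul_le_mul_left h6 h5
  have hE : ‖Complex.exp (-((100 / p : ℝ) / ζ))‖ ^ p = Real.exp (-(25 / x)) := by
    rw [exp_inv_norm, ← Real.exp_mul, hy]
    congr 1
    rw [← hxdef]
    field_simp
    ring
  rw [norm_mul, Real.mul_rpow (norm_nonneg _) (norm_nonneg _), hE]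
  have h7 : 1 / (x ^ 2) ^ 2 ≤ 24 * Real.exp (1 / x) := by
    have := Real.pow_div_factorial_le_exp (1 / x) (by positivity) 4
    have h8 : ((Nat.factorial 4 : ℕ) : ℝ) = 24 := by norm_num [Nat.factorial]
    rw [h8, div_le_iff₀ (by norm_num)] at this
    calc 1 / (x ^ 2) ^ 2 = (1 / x) ^ 4 := by field_simp
      _ ≤ _ := by linarith
  have h9 : ‖P.eval (1 - ζ)‖ ^ p ≤ (24 * Real.exp (1 / x)) * (Real.exp (24 / x) * K) := by
    have h10 : ‖P.eval (1 - ζ)‖ ^ p = 1 / (x ^ 2) ^ 2 * ((x ^ 2) ^ 2 * ‖P.eval (1 - ζ)‖ ^ p) := by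
      field_simp
    rw [h10]
    exact mul_le_mul h7 h4 (by positivity) (by positivity)
  calc ‖P.eval (1 - ζ)‖ ^ p * Real.exp (-(25 / x))
      ≤ (24 * Real.exp (1 / x)) * (Real.exp (24 / x) * K) * Real.exp (-(25 / x)) :=
        mul_le_mul_of_nonneg_right h9 (Real.exp_pos _).le
    _ = 24 * K * (Real.exp (1 / x) * Real.exp (24 / x) * Real.exp (-(25 / x))) := by ring
    _ = 24 * K := by
        rw [← Real.exp_add, ← Real.exp_add,
          show 1 / x + 24 / x + -(25 / x) = 0 by ring, Real.exp_zero, mul_one]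

/-- Bound on the outer segment. -/
theorem seg_bound {P : ℂ[X]} {p : ℝ} (hp : 0 < p) {K : ℝ} (hK : 0 ≤ K)
    (hN : NN p (fun z => P.eval z * ff (8 / p) z) ≤ ENNReal.ofReal K) {ζ : ℂ}
    (hx : ζ.re = 1 / 6) (hy : ζ.im ^ 2 ≤ 3 * ζ.re ^ 2) :
    ‖P.eval (1 - ζ) * Complex.exp (-((100 / p : ℝ) / ζ))‖ ^ p ≤ 400 * Real.exp 688 * K := by
  have hdiff : DifferentiableOn ℂ (fun z => P.eval z * ff (8 / p) z) (ball 0 1) :=
    P.differentiable.differentiableOn.mul (ff_diffOn _)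
  have hz : ‖1 - ζ‖ ≤ 9 / 10 := by
    apply le_of_sq_le_sq _ (by norm_num)
    rw [norm_one_sub_sq, hx]
    rw [hx] at hy
    nlinarith
  have h1 := point_real hdiff hp hK hN (z := 1 - ζ) (δ := 1 / 20) (by norm_num) (by linarith)
  have h2 : Real.exp (1 / (1 - ‖1 - ζ‖ - 1 / 20) ^ 2) ≤ Real.exp 400 := by
    rw [Real.exp_le_exp, div_le_iff₀ (by nlinarith)]
    nlinarith
  have h3 := h1.trans (mul_le_mul_of_nonneg_right h2 hK)
  have hf : Real.exp (-288) ≤ ‖ff (8 / p) (1 - ζ)‖ ^ p := by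
    rw [ff_rpow hp, Real.exp_le_exp, neg_le_neg_iff]
    have h4 : 0 < ζ.re ^ 2 + ζ.im ^ 2 := by rw [hx]; positivity
    rw [div_le_iff₀ (by positivity), hx]
    nlinarith [sq_nonneg ζ.im, sq_nonneg (ζ.im ^ 2)]
  have hE : ‖Complex.exp (-((100 / p : ℝ) / ζ))‖ ^ p ≤ 1 := by
    rw [exp_inv_norm]
    apply Real.rpow_le_one (Real.exp_pos _).le _ hp.le
    rw [Real.exp_le_one_iff, hx]
    have : 0 ≤ 100 / p * (1 / 6) / ((1 / 6) ^ 2 + ζ.im ^ 2) := by positivity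
    linarith
  rw [norm_mul, Real.mul_rpow (norm_nonneg _) (norm_nonneg _)] at h3
  rw [norm_mul, Real.mul_rpow (norm_nonneg _) (norm_nonneg _)]
  have h5 : ‖P.eval (1 - ζ)‖ ^ p ≤ 400 * Real.exp 688 * K := by
    have h6 : (1 / 20 : ℝ) ^ 2 * (‖P.eval (1 - ζ)‖ ^ p * Real.exp (-288)) ≤ Real.exp 400 * K := by
      refine le_trans ?_ h3
      gcongr
    have h7 : ‖P.eval (1 - ζ)‖ ^ p =
        400 * Real.exp 288 * ((1 / 20 : ℝ) ^ 2 * (‖P.eval (1 - ζ)‖ ^ p * Real.exp (-288))) := by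
      have : Real.exp 288 * Real.exp (-288) = 1 := by
        rw [← Real.exp_add]; norm_num
      calc ‖P.eval (1 - ζ)‖ ^ p = ‖P.eval (1 - ζ)‖ ^ p * (Real.exp 288 * Real.exp (-288)) := by
            rw [this, mul_one]
        _ = _ := by ring
    rw [h7]
    calc 400 * Real.exp 288 * ((1 / 20 : ℝ) ^ 2 * (‖P.eval (1 - ζ)‖ ^ p * Real.exp (-288)))
        ≤ 400 * Real.exp 288 * (Real.exp 400 * K) :=
          mul_le_mul_of_nonneg_left h6 (by positivity)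
      _ = 400 * (Real.exp 288 * Real.exp 400) * K := by ring
      _ = 400 * Real.exp 688 * K := by rw [← Real.exp_add]; norm_num
  calc ‖P.eval (1 - ζ)‖ ^ p * ‖Complex.exp (-((100 / p : ℝ) / ζ))‖ ^ p
      ≤ ‖P.eval (1 - ζ)‖ ^ p * 1 := by gcongr
    _ ≤ _ := by rw [mul_one]; exact h5

end Pool.Agent.Lib.MP_d61770_an
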