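import Pool.Agent.Lib.MP_d61770_an.NonCyc

/-!
# `ff (8/p)` is not weakly invertible in `E^p(mu0)`: conclusion
-/

set_option autoImplicit false

namespace Pool.Agent.Lib.MP_d61770_an

open MeasureTheory Filter Topology Metric Set
open scoped ENNReal Polynomial Real

/-- The trapezoid. -/
def trap (ε : ℝ) : Set ℂ := {ζ | ε < ζ.re ∧ ζ.re < 1 / 6 ∧ ζ.im ^ 2 < 3 * ζ.re ^ 2}

theorem isOpen_trap (ε : ℝ) : IsOpen (trap ε) := by
  unfold trap
  apply IsOpen.inter
  · exact isOpen_lt continuous_const Complex.continuous_re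
  · apply IsOpen.inter
    · exact isOpen_lt Complex.continuous_re continuous_const
    · exact isOpen_lt (Complex.continuous_im.pow 2)
        (continuous_const.mul (Complex.continuous_re.pow 2))

theorem closure_trap (ε : ℝ) :
    closure (trap ε) ⊆ {ζ | ε ≤ ζ.re ∧ ζ.re ≤ 1 / 6 ∧ ζ.im ^ 2 ≤ 3 * ζ.re ^ 2} := by
  apply closure_minimal
  · rintro ζ ⟨h1, h2, h3⟩
    exact ⟨h1.le, h2.le, h3.le⟩
  · apply IsClosed.inter
    · exact isClosed_le continuous_const Complex.continuous_re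
    · apply IsClosed.inter
      · exact isClosed_le Complex.continuous_re continuous_const
      · exact isClosed_le (Complex.continuous_im.pow 2)
          (continuous_const.mul (Complex.continuous_re.pow 2))

theorem frontier_trap (ε : ℝ) {ζ : ℂ} (h : ζ ∈ frontier (trap ε)) :
    (ε ≤ ζ.re ∧ ζ.re ≤ 1 / 6 ∧ ζ.im ^ 2 ≤ 3 * ζ.re ^ 2) ∧
      (ζ.re = ε ∨ ζ.re = 1 / 6 ∨ ζ.im ^ 2 = 3 * ζ.re ^ 2) := by
  rw [(isOpen_trap ε).frontier_eq] at h
  have h1 := closure_trap ε h.1
  refine ⟨h1, ?_⟩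
  by_contra hcon
  push Not at hcon
  apply h.2
  exact ⟨lt_of_le_of_ne h1.1 (Ne.symm hcon.1), lt_of_le_of_ne h1.2.1 hcon.2.1,
    lt_of_le_of_ne h1.2.2 hcon.2.2⟩

theorem bounded_trap (ε : ℝ) (hε : 0 ≤ ε) : Bornology.IsBounded (trap ε) := by
  apply (isBounded_ball (x := (0 : ℂ)) (r := 1)).subset
  rintro ζ ⟨h1, h2, h3⟩
  rw [mem_ball_zero_iff]
  have h4 : ‖ζ‖ ^ 2 < 1 ^ 2 := by
    rw [norm_sq]
    nlinarith
  exact lt_of_pow_lt_pow_left₀ 2 (by norm_num) h4

theorem real_bound {P : ℂ[X]} {p : ℝ} (hp : 0 < p) {K : ℝ} (hK : 0 ≤ K)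
    (hN : NN p (fun z => P.eval z * ff (8 / p) z) ≤ ENNReal.ofReal K) {x : ℝ}
    (hx : 0 < x) (hx' : x < 1 / 6) :
    ‖P.eval (1 - (x : ℂ))‖ ^ p ≤ (400 * Real.exp 688 * K + 1) * Real.exp (100 / x) := by
  set M : ℝ := 400 * Real.exp 688 * K + 1 with hM
  have hMpos : 0 < M := by positivity
  have h24 : 24 * K ≤ M := by
    have : (1 : ℝ) ≤ Real.exp 688 := Real.one_le_exp (by norm_num)
    nlinarith
  set Φ : ℂ → ℂ := fun ζ => P.eval (1 - ζ) * Complex.exp (-((100 / p : ℝ) / ζ)) with hΦ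
  -- crude bound for `P`
  obtain ⟨B, hB⟩ := (isCompact_closedBall (0 : ℂ) 1).exists_bound_of_continuousOn
    (f := fun z : ℂ => P.eval z) P.continuous.continuousOn
  have hB0 : 0 ≤ B := (norm_nonneg _).trans (hB 0 (by simp))
  -- choice of `ε`
  have hlim : Tendsto (fun ε : ℝ => B * Real.exp (-((100 / p) / 4 * ε⁻¹))) (𝓝[>] 0) (𝓝 0) := by
    have h1 : Tendsto (fun ε : ℝ => (100 / p) / 4 * ε⁻¹) (𝓝[>] 0) atTop :=
      tendsto_inv_nhdsGT_zero.const_mul_atTop (by positivity)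
    have h2 := (Real.tendsto_exp_neg_atTop_nhds_zero.comp h1).const_mul B
    simpa [Function.comp_def] using h2
  have hMp : 0 < M ^ (1 / p) := by positivity
  obtain ⟨ε, hε1, hε⟩ := ((hlim.eventually (gt_mem_nhds hMp)).and
    (Ioo_mem_nhdsGT hx)).exists
  have hε0 : 0 < ε := hε.1
  -- maximum principle
  have hdiff : DiffContOnCl ℂ Φ (trap ε) := by
    apply DifferentiableOn.diffContOnCl
    intro ζ hζ
    have h1 := closure_trap ε hζ
    have h2 : ζ ≠ 0 := by
      rintro rfl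
      have := h1.1
      simp at this
      linarith
    apply DifferentiableAt.differentiableWithinAt
    simp only [hΦ]
    apply DifferentiableAt.mul
    · exact P.differentiable.differentiableAt.comp ζ (by fun_prop)
    · fun_prop (disch := exact h2)
  have hfr : ∀ ζ ∈ frontier (trap ε), ‖Φ ζ‖ ≤ M ^ (1 / p) := by
    intro ζ hζ
    obtain ⟨⟨h1, h2, h3⟩, h4⟩ := frontier_trap ε hζ
    have hre : 0 < ζ.re := lt_of_lt_of_le hε0 h1
    have key : ‖Φ ζ‖ ^ p ≤ M → ‖Φ ζ‖ ≤ M ^ (1 / p) := by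
      intro h
      have h5 := Real.rpow_le_rpow (by positivity) h (by positivity : 0 ≤ 1 / p)
      rwa [← Real.rpow_mul (norm_nonneg _), mul_one_div_cancel hp.ne', Real.rpow_one] at h5
    rcases h4 with h4 | h4 | h4
    · -- inner segment
      have h5 : ‖1 - ζ‖ ≤ 1 := by
        apply le_of_sq_le_sq _ (by norm_num)
        rw [norm_one_sub_sq]
        nlinarith
      have h6 : ‖P.eval (1 - ζ)‖ ≤ B := hB _ (by simpa using h5)
      have h7 : ‖Complex.exp (-((100 / p : ℝ) / ζ))‖ ≤ Real.exp (-((100 / p) / 4 * ε⁻¹)) := by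
        rw [exp_inv_norm, Real.exp_le_exp, neg_le_neg_iff, h4]
        rw [h4] at h3
        rw [← div_eq_mul_inv, div_div, div_le_div_iff₀ (by positivity) (by positivity)]
        have h8 : 0 < 100 / p := by positivity
        have h9 : ε ^ 2 + ζ.im ^ 2 ≤ 4 * ε ^ 2 := by linarith
        calc 100 / p * (ε ^ 2 + ζ.im ^ 2) ≤ 100 / p * (4 * ε ^ 2) :=
              mul_le_mul_of_nonneg_left h9 h8.le
          _ = 100 / p * ε * (4 * ε) := by ring
      calc ‖Φ ζ‖ = ‖P.eval (1 - ζ)‖ * ‖Complex.exp (-((100 / p : ℝ) / ζ))‖ := norm_mul _ _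
        _ ≤ B * Real.exp (-((100 / p) / 4 * ε⁻¹)) :=
            mul_le_mul h6 h7 (norm_nonneg _) hB0
        _ ≤ _ := hε1.le
    · -- outer segment
      apply key
      have := seg_bound hp hK hN h4 h3
      simp only [hΦ]
      linarith
    · -- rays
      apply key
      have := ray_bound hp hK hN hre h2 h4
      simp only [hΦ]
      linarith
  have hmax := Complex.norm_le_of_forall_mem_frontier_norm_le (bounded_trap ε hε0.le) hdiff hfr
    (z := (x : ℂ)) (subset_closure (by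
      refine ⟨?_, ?_, ?_⟩
      · simpa using hε.2
      · simpa using hx'
      · simp only [Complex.ofReal_im, Complex.ofReal_re]
        nlinarith [pow_pos hx 2]))
  have h5 : ‖Φ x‖ ^ p ≤ M := by
    have h6 := Real.rpow_le_rpow (norm_nonneg _) hmax hp.le
    rwa [← Real.rpow_mul hMpos.le, one_div_mul_cancel hp.ne', Real.rpow_one] at h6
  have h6 : ‖Complex.exp (-((100 / p : ℝ) / (x : ℂ)))‖ ^ p = Real.exp (-(100 / x)) := by
    rw [exp_inv_norm, ← Real.exp_mul]
    congr 1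
    simp only [Complex.ofReal_re, Complex.ofReal_im]
    field_simp
    ring
  simp only [hΦ] at h5
  rw [norm_mul, Real.mul_rpow (norm_nonneg _) (norm_nonneg _), h6] at h5
  calc ‖P.eval (1 - (x : ℂ))‖ ^ p
      = ‖P.eval (1 - (x : ℂ))‖ ^ p * Real.exp (-(100 / x)) * Real.exp (100 / x) := by
        rw [mul_assoc, ← Real.exp_add, neg_add_cancel, Real.exp_zero, mul_one]
    _ ≤ M * Real.exp (100 / x) := mul_le_mul_of_nonneg_right h5 (Real.exp_pos _).le

theorem exists_small (M c : ℝ) (hc : 0 < c) :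
    ∃ x : ℝ, 0 < x ∧ x < 1 / 6 ∧ M * Real.exp (100 / x) * Real.exp (-(8 / x ^ 2)) < c := by
  have h1 : Tendsto (fun u : ℝ => u * (8 * u - 100)) atTop atTop := by
    apply Tendsto.atTop_mul_atTop₀ tendsto_id
    have : Tendsto (fun u : ℝ => 8 * u) atTop atTop := tendsto_id.const_mul_atTop (by norm_num)
    exact tendsto_atTop_add_const_right _ _ this
  have h2 := (Real.tendsto_exp_neg_atTop_nhds_zero.comp h1).const_mul M
  rw [mul_zero] at h2
  obtain ⟨u, hu1, hu2⟩ := ((h2.eventually (gt_mem_nhds hc)).and (eventually_gt_atTop 6)).exists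
  have hu0 : 0 < u := by linarith
  refine ⟨1 / u, by positivity, ?_, ?_⟩
  · rw [div_lt_div_iff₀ hu0 (by norm_num)]; linarith
  · simp only [Function.comp_apply] at hu1
    rw [mul_assoc, ← Real.exp_add]
    have h3 : 100 / (1 / u) + -(8 / (1 / u) ^ 2) = -(u * (8 * u - 100)) := by
      field_simp
      ring
    rw [h3]
    exact hu1

theorem not_wi {p : ℝ} (hp : 0 < p) : ¬ WeaklyInvertible mu0 p (ff (8 / p)) := by
  rintro ⟨P, hP⟩
  set F : ℕ → ℂ → ℂ := fun n z => (P n).eval z * ff (8 / p) z - 1 with hF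
  have hFdiff : ∀ n, DifferentiableOn ℂ (F n) (ball 0 1) := fun n =>
    ((P n).differentiable.differentiableOn.mul (ff_diffOn _)).sub_const 1
  -- `NN p (F n) → 0`
  have hN0 : Tendsto (fun n => NN p (F n)) atTop (𝓝 0) := by
    have h1 := ((ENNReal.continuous_rpow_const (y := p)).tendsto 0).comp hP
    rw [ENNReal.zero_rpow_of_pos hp] at h1
    apply tendsto_of_tendsto_of_tendsto_of_le_of_le tendsto_const_nhds h1
    · intro n
      exact zero_le
    · intro n
      exact NN_le_pnorm (hFdiff n).continuousOn hp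
  -- `NN p (P n · f)` is bounded
  set K : ℝ := 2 ^ p * (1 + π) with hK
  have hK0 : 0 ≤ K := by positivity
  have hbd : ∀ᶠ n in atTop, NN p (fun z => (P n).eval z * ff (8 / p) z) ≤ ENNReal.ofReal K := by
    filter_upwards [hN0.eventually (ge_mem_nhds (by norm_num : (0 : ℝ≥0∞) < 1))] with n hn
    have hmeas : Measurable (F n) := by
      have h4 : Measurable (fun z : ℂ => (P n).eval z) := (P n).continuous.measurable
      exact (h4.mul (measurable_ff _)).sub_const 1
    calc NN p (fun z => (P n).eval z * ff (8 / p) z)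
        = NN p (fun z => F n z + (fun _ => 1) z) := by
          congr 1; funext z; simp [hF]
      _ ≤ ENNReal.ofReal (2 ^ p) * (NN p (F n) + NN p (fun _ => 1)) := NN_add_le hp.le hmeas
      _ ≤ ENNReal.ofReal (2 ^ p) * (1 + ENNReal.ofReal π) := by
          gcongr
          have : NN p (fun _ => (1 : ℂ)) = mu0 univ := by simp [NN]
          rw [this]
          exact mu0_univ_le
      _ = ENNReal.ofReal K := by
          rw [hK, ENNReal.ofReal_mul (by positivity), ENNReal.ofReal_add (by norm_num)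
            Real.pi_pos.le, ENNReal.ofReal_one]
  -- choose the point
  obtain ⟨x, hx, hx', hsmall⟩ := exists_small (400 * Real.exp 688 * K + 1) ((1 / 2) ^ p)
    (by positivity)
  -- pointwise convergence
  have hz : ‖(1 - x : ℂ)‖ = 1 - x := by
    rw [show (1 - x : ℂ) = ((1 - x : ℝ) : ℂ) by push_cast; ring, Complex.norm_real,
      Real.norm_of_nonneg (by linarith)]
  have hpt : ∀ᶠ n in atTop, ‖F n (1 - x)‖ < 1 / 2 := by
    have hE : ENNReal.ofReal (Real.exp (1 / (1 - ‖(1 - x : ℂ)‖ - x / 2) ^ 2)) ≠ ∞ :=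
      ENNReal.ofReal_ne_top
    have h1 := ENNReal.Tendsto.const_mul
      (a := ENNReal.ofReal (Real.exp (1 / (1 - ‖(1 - x : ℂ)‖ - x / 2) ^ 2))) hN0 (Or.inr hE)
    rw [mul_zero] at h1
    have h2 : (0 : ℝ≥0∞) < ENNReal.ofReal (π * (x / 2) ^ 2 * (1 / 2) ^ p) := by
      rw [ENNReal.ofReal_pos]; positivity
    filter_upwards [h1.eventually (gt_mem_nhds h2)] with n hn
    have h3 := (point_eval (hFdiff n) hp (z := (1 - x : ℂ)) (δ := x / 2) (by positivity)
      (by rw [hz]; linarith)).trans_lt hn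
    rw [ENNReal.ofReal_lt_ofReal_iff (by positivity)] at h3
    have h4 : ‖F n (1 - x)‖ ^ p < (1 / 2) ^ p := by
      have h5 : 0 < π * (x / 2) ^ 2 := by positivity
      exact lt_of_mul_lt_mul_left h3 h5.le
    exact (Real.rpow_lt_rpow_iff (norm_nonneg _) (by norm_num) hp).mp h4
  obtain ⟨n, hn1, hn2⟩ := (hbd.and hpt).exists
  have h1 := real_bound hp hK0 hn1 hx hx'
  have h2 : ‖ff (8 / p) (1 - (x : ℂ))‖ ^ p = Real.exp (-(8 / x ^ 2)) := by
    rw [ff_rpow hp]
    congr 1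
    simp only [Complex.ofReal_re, Complex.ofReal_im]
    field_simp
    ring
  have h3 : ‖(P n).eval (1 - (x : ℂ)) * ff (8 / p) (1 - (x : ℂ))‖ ^ p < (1 / 2) ^ p := by
    rw [norm_mul, Real.mul_rpow (norm_nonneg _) (norm_nonneg _), h2]
    exact (mul_le_mul_of_nonneg_right h1 (Real.exp_pos _).le).trans_lt hsmall
  have h4 : ‖(P n).eval (1 - (x : ℂ)) * ff (8 / p) (1 - (x : ℂ))‖ < 1 / 2 :=
    (Real.rpow_lt_rpow_iff (norm_nonneg _) (by norm_num) hp).mp h3
  have h5 : (1 : ℝ) ≤ ‖F n (1 - x)‖ + ‖(P n).eval (1 - (x : ℂ)) * ff (8 / p) (1 - (x : ℂ))‖ := by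
    have h6 : (1 : ℂ) = -(F n (1 - x)) + (P n).eval (1 - (x : ℂ)) * ff (8 / p) (1 - (x : ℂ)) := by
      simp only [hF]; ring
    calc (1 : ℝ) = ‖(1 : ℂ)‖ := by simp
      _ = ‖-(F n (1 - x)) + (P n).eval (1 - (x : ℂ)) * ff (8 / p) (1 - (x : ℂ))‖ := by rw [← h6]
      _ ≤ _ := by
        refine (norm_add_le _ _).trans ?_
        rw [norm_neg]
  linarith

end Pool.Agent.Lib.MP_d61770_an
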