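import Pool.Agent.Lib.MP_d61770_an.Mean

/-!
# The norm `pnorm mu0 q F` and the integral `NN q F`
-/

set_option autoImplicit false

namespace Pool.Agent.Lib.MP_d61770_an

open MeasureTheory Filter Topology Metric Set
open scoped ENNReal Polynomial Real

theorem lint_mu0 (H : ℂ → ℝ≥0∞) : ∫⁻ z, H z ∂mu0 =
    ∫⁻ w in ball (0 : ℂ) 1, ENNReal.ofReal (wt w) * H w := by
  unfold mu0
  rw [lintegral_withDensity_eq_lintegral_mul_non_measurable _ (by
    exact measurable_wt.ennreal_ofReal) (ae_of_all _ fun _ => ENNReal.ofReal_lt_top)]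
  rfl

theorem mu0_ac : mu0 ≪ volume.restrict (ball (0 : ℂ) 1) := withDensity_absolutelyContinuous _ _

theorem vol_ball : volume (ball (0 : ℂ) 1) = ENNReal.ofReal π := by
  rw [Complex.volume_ball, ENNReal.ofReal_eq_coe_nnreal Real.pi_pos.le]
  simp
  rfl

theorem mu0_univ_le : mu0 univ ≤ ENNReal.ofReal π := by
  have h : mu0 univ = ∫⁻ _, 1 ∂mu0 := by simp
  rw [h, lint_mu0]
  calc ∫⁻ w in ball (0 : ℂ) 1, ENNReal.ofReal (wt w) * 1
      ≤ ∫⁻ _ in ball (0 : ℂ) 1, 1 := by
        apply lintegral_mono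
        intro w
        simp only [mul_one]
        rw [← ENNReal.ofReal_one]
        exact ENNReal.ofReal_le_ofReal wt_le_one
    _ = ENNReal.ofReal π := by
        rw [setLIntegral_one, vol_ball]

theorem aemeas_of_cont {F : ℂ → ℂ} (hF : ContinuousOn F (ball 0 1)) {q : ℝ} (hq : 0 ≤ q) :
    AEMeasurable (fun z => ENNReal.ofReal (‖F z‖ ^ q)) mu0 := by
  apply AEMeasurable.mono_ac _ mu0_ac
  apply AEMeasurable.ennreal_ofReal
  exact (hF.norm.rpow_const fun _ _ => Or.inr hq).aemeasurable measurableSet_ball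

theorem mean_rpow (μ : Measure ℂ) {p : ℝ} (hp : 0 < p) (r : ℝ) (f : ℂ → ℂ) :
    (mean μ p r f) ^ p = ∫⁻ w, ENNReal.ofReal (‖f (r * w)‖ ^ p) ∂μ := by
  unfold mean
  rw [← ENNReal.rpow_mul, one_div_mul_cancel hp.ne', ENNReal.rpow_one]

theorem mean_le_pnorm (μ : Measure ℂ) (p : ℝ) {r : ℝ} (hr : r ∈ Ico (0 : ℝ) 1) (f : ℂ → ℂ) :
    mean μ p r f ≤ pnorm μ p f := by
  unfold pnorm
  exact le_iSup₂ (f := fun r (_ : r ∈ Ico (0 : ℝ) 1) => mean μ p r f) r hr

theorem NN_le_pnorm {F : ℂ → ℂ} (hF : ContinuousOn F (ball 0 1)) {p : ℝ} (hp : 0 < p) :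
    NN p F ≤ (pnorm mu0 p F) ^ p := by
  set r : ℕ → ℝ := fun n => 1 - 1 / ((n : ℝ) + 1) with hr
  have hr1 : ∀ n, r n ∈ Ico (0 : ℝ) 1 := by
    intro n
    have h1 : (0 : ℝ) < (n : ℝ) + 1 := by positivity
    have h2 : 1 / ((n : ℝ) + 1) ≤ 1 := by
      rw [div_le_one h1]
      linarith [(Nat.cast_nonneg n : (0 : ℝ) ≤ n)]
    have h3 : 0 < 1 / ((n : ℝ) + 1) := by positivity
    exact ⟨by simp only [hr]; linarith, by simp only [hr]; linarith⟩
  have hrlim : Tendsto r atTop (𝓝 1) := by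
    have := tendsto_one_div_add_atTop_nhds_zero_nat (𝕜 := ℝ)
    have h2 := (tendsto_const_nhds (x := (1 : ℝ))).sub this
    simpa [hr] using h2
  have hFr : ∀ n, ContinuousOn (fun z : ℂ => F ((r n : ℂ) * z)) (ball 0 1) := by
    intro n
    apply hF.comp (by fun_prop)
    intro z hz
    rw [mem_ball_zero_iff] at hz ⊢
    rw [norm_mul, Complex.norm_real, Real.norm_of_nonneg (hr1 n).1]
    calc r n * ‖z‖ ≤ 1 * ‖z‖ := mul_le_mul_of_nonneg_right (hr1 n).2.le (norm_nonneg _)
      _ < 1 := by linarith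
  have hfatou := lintegral_liminf_le' (μ := mu0) (u := atTop)
    (f := fun n z => ENNReal.ofReal (‖F ((r n : ℂ) * z)‖ ^ p))
    (fun n => aemeas_of_cont (hFr n) hp.le)
  have hlim : ∀ z ∈ ball (0 : ℂ) 1,
      liminf (fun n => ENNReal.ofReal (‖F ((r n : ℂ) * z)‖ ^ p)) atTop =
        ENNReal.ofReal (‖F z‖ ^ p) := by
    intro z hz
    apply Tendsto.liminf_eq
    apply (ENNReal.continuous_ofReal.tendsto _).comp
    apply Tendsto.rpow_const _ (Or.inr hp.le)
    apply Tendsto.norm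
    have h1 : Tendsto (fun n => (r n : ℂ) * z) atTop (𝓝 z) := by
      have := ((Complex.continuous_ofReal.tendsto 1).comp hrlim).mul_const z
      simpa using this
    exact (hF.continuousAt (isOpen_ball.mem_nhds hz)).tendsto.comp h1
  have h3 : NN p F = ∫⁻ z, liminf (fun n => ENNReal.ofReal (‖F ((r n : ℂ) * z)‖ ^ p)) atTop ∂mu0 := by
    unfold NN
    apply lintegral_congr_ae
    apply mu0_ac.ae_le
    filter_upwards [ae_restrict_mem measurableSet_ball] with z hz
    exact (hlim z hz).symm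
  rw [h3]
  refine hfatou.trans ?_
  apply liminf_le_of_le
  · isBoundedDefault
  · intro b hb
    obtain ⟨n, hn⟩ := hb.exists
    refine hn.trans ?_
    rw [← mean_rpow mu0 hp (r n) F]
    exact ENNReal.rpow_le_rpow (mean_le_pnorm mu0 p (hr1 n) F) hp.le

theorem wt_anti {z w : ℂ} (hz : ‖z‖ ≤ ‖w‖) (hw : ‖w‖ < 1) : wt w ≤ wt z := by
  unfold wt
  rw [Real.exp_le_exp]
  have h0 : 0 < 1 - ‖w‖ := by linarith
  have : 1 / (1 - ‖z‖) ^ 2 ≤ 1 / (1 - ‖w‖) ^ 2 :=
    one_div_le_one_div_of_le (by positivity) (pow_le_pow_left₀ h0.le (by linarith) 2)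
  linarith

/-- The constant in the comparison of the two norms. -/
noncomputable def CC : ℝ≥0∞ := ENNReal.ofReal (16 * Real.exp 16) + 4

theorem CC_ne_top : CC ≠ ∞ := by
  unfold CC
  exact ENNReal.add_ne_top.mpr ⟨ENNReal.ofReal_ne_top, by norm_num⟩

theorem dilate_le {F : ℂ → ℂ} (hF : DifferentiableOn ℂ F (ball 0 1)) {q : ℝ} (hq : 0 < q)
    {r : ℝ} (hr : r ∈ Ico (0 : ℝ) 1) :
    ∫⁻ w, ENNReal.ofReal (‖F (r * w)‖ ^ q) ∂mu0 ≤ CC * NN q F := by
  rcases le_or_gt (1 / 2) r with h | h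
  · -- large radii: change of variables
    have hr0 : r ≠ 0 := by linarith
    set G : ℂ → ℝ≥0∞ := (ball (0 : ℂ) 1).indicator
      (fun w => ENNReal.ofReal (wt w) * ENNReal.ofReal (‖F w‖ ^ q)) with hG
    have h1 : ∫⁻ w, ENNReal.ofReal (‖F (r * w)‖ ^ q) ∂mu0 ≤ ∫⁻ w : ℂ, G (r • w) := by
      rw [lint_mu0, ← lintegral_indicator measurableSet_ball]
      apply lintegral_mono
      intro w
      by_cases hw : w ∈ ball (0 : ℂ) 1
      · have hw' := mem_ball_zero_iff.mp hw
        have h2 : ‖r • w‖ ≤ ‖w‖ := by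
          rw [norm_smul, Real.norm_of_nonneg hr.1]
          calc r * ‖w‖ ≤ 1 * ‖w‖ := mul_le_mul_of_nonneg_right hr.2.le (norm_nonneg _)
            _ = ‖w‖ := one_mul _
        have h3 : r • w ∈ ball (0 : ℂ) 1 := by
          rw [mem_ball_zero_iff]; linarith
        simp only [hG]
        rw [indicator_of_mem hw, indicator_of_mem h3]
        have h4 : (r : ℂ) * w = r • w := (Complex.real_smul).symm
        rw [h4]
        gcongr
        exact wt_anti h2 hw'
      · rw [indicator_of_notMem hw]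
        simp
    have h2 : ∫⁻ w : ℂ, G (r • w) = ENNReal.ofReal |(r ^ 2)⁻¹| * ∫⁻ w, G w := by
      have h3 := Measure.map_addHaar_smul (volume : Measure ℂ) hr0
      rw [Complex.finrank_real_complex] at h3
      have h4 : ∫⁻ w : ℂ, G (r • w) = ∫⁻ w, G w ∂(volume.map (r • ·)) :=
        (lintegral_map_equiv G ((Homeomorph.smulOfNeZero r hr0).toMeasurableEquiv)).symm
      rw [h4, h3, lintegral_smul_measure, smul_eq_mul]
    have h3 : ∫⁻ w, G w = NN q F := by
      rw [hG, lintegral_indicator measurableSet_ball]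
      unfold NN
      rw [lint_mu0]
    rw [h2, h3] at h1
    refine h1.trans ?_
    gcongr
    unfold CC
    refine le_trans ?_ (self_le_add_left _ _)
    have h4 : |(r ^ 2)⁻¹| ≤ 4 := by
      rw [abs_of_nonneg (by positivity), inv_le_comm₀ (by positivity) (by norm_num)]
      nlinarith
    calc ENNReal.ofReal |(r ^ 2)⁻¹| ≤ ENNReal.ofReal 4 := ENNReal.ofReal_le_ofReal h4
      _ = 4 := by simp
  · -- small radii: point evaluations
    have h1 : ∀ w ∈ ball (0 : ℂ) 1, ENNReal.ofReal (‖F (r * w)‖ ^ q) ≤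
        ENNReal.ofReal (16 * Real.exp 16 / π) * NN q F := by
      intro w hw
      have hw' := mem_ball_zero_iff.mp hw
      have hz : ‖(r : ℂ) * w‖ ≤ 1 / 2 := by
        rw [norm_mul, Complex.norm_real, Real.norm_of_nonneg hr.1]
        calc r * ‖w‖ ≤ r * 1 := mul_le_mul_of_nonneg_left hw'.le hr.1
          _ ≤ 1 / 2 := by linarith
      have h2 := point_eval hF hq (z := (r : ℂ) * w) (δ := 1 / 4) (by norm_num) (by linarith)
      have h3 : ENNReal.ofReal (Real.exp (1 / (1 - ‖(r : ℂ) * w‖ - 1 / 4) ^ 2)) ≤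
          ENNReal.ofReal (Real.exp 16) := by
        apply ENNReal.ofReal_le_ofReal
        rw [Real.exp_le_exp, div_le_iff₀ (by nlinarith)]
        nlinarith
      have h4 := h2.trans (mul_le_mul_left (a := NN q F) h3)
      have h5 : ENNReal.ofReal (‖F (r * w)‖ ^ q) =
          ENNReal.ofReal (16 / π) * ENNReal.ofReal (π * (1 / 4) ^ 2 * ‖F (r * w)‖ ^ q) := by
        rw [← ENNReal.ofReal_mul (by positivity)]
        congr 1
        field_simp
        ring
      calc ENNReal.ofReal (‖F (r * w)‖ ^ q)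
          = ENNReal.ofReal (16 / π) * ENNReal.ofReal (π * (1 / 4) ^ 2 * ‖F (r * w)‖ ^ q) := h5
        _ ≤ ENNReal.ofReal (16 / π) * (ENNReal.ofReal (Real.exp 16) * NN q F) := by gcongr
        _ = ENNReal.ofReal (16 * Real.exp 16 / π) * NN q F := by
            rw [← mul_assoc, ← ENNReal.ofReal_mul (by positivity)]
            congr 2
            ring
    calc ∫⁻ w, ENNReal.ofReal (‖F (r * w)‖ ^ q) ∂mu0
        ≤ ∫⁻ _, ENNReal.ofReal (16 * Real.exp 16 / π) * NN q F ∂mu0 := by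
          apply lintegral_mono_ae
          apply mu0_ac.ae_le
          filter_upwards [ae_restrict_mem measurableSet_ball] with w hw
          exact h1 w hw
      _ = ENNReal.ofReal (16 * Real.exp 16 / π) * NN q F * mu0 univ := by
          rw [lintegral_const]
      _ ≤ ENNReal.ofReal (16 * Real.exp 16 / π) * NN q F * ENNReal.ofReal π := by
          gcongr
          exact mu0_univ_le
      _ = ENNReal.ofReal (16 * Real.exp 16) * NN q F := by
          rw [mul_right_comm, ← ENNReal.ofReal_mul (by positivity)]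
          congr 2
          field_simp
      _ ≤ CC * NN q F := by
          gcongr
          unfold CC
          exact self_le_add_right _ _

theorem pnorm_le {F : ℂ → ℂ} (hF : DifferentiableOn ℂ F (ball 0 1)) {q : ℝ} (hq : 0 < q) :
    pnorm mu0 q F ≤ (CC * NN q F) ^ (1 / q) := by
  unfold pnorm
  apply iSup₂_le
  intro r hr
  unfold mean
  exact ENNReal.rpow_le_rpow (dilate_le hF hq hr) (by positivity)

theorem NN_ff_le {a q : ℝ} (ha : 0 ≤ a) (hq : 0 < q) (h : (a / 8) * q ≤ 1) :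
    NN q (ff a) ≤ ENNReal.ofReal π := by
  unfold NN
  rw [lint_mu0]
  calc ∫⁻ w in ball (0 : ℂ) 1, ENNReal.ofReal (wt w) * ENNReal.ofReal (‖ff a w‖ ^ q)
      ≤ ∫⁻ _ in ball (0 : ℂ) 1, 1 := by
        apply setLIntegral_mono' measurableSet_ball
        intro w hw
        rw [← ENNReal.ofReal_mul (wt_nonneg w), ← ENNReal.ofReal_one, mul_comm]
        exact ENNReal.ofReal_le_ofReal (f_bound ha hq.le h (mem_ball_zero_iff.mp hw))
    _ = ENNReal.ofReal π := by
        rw [setLIntegral_one, vol_ball]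

theorem memE_ff {a q : ℝ} (ha : 0 ≤ a) (hq : 0 < q) (h : (a / 8) * q ≤ 1) :
    MemE mu0 q (ff a) := by
  refine ⟨ff_diffOn a, ?_⟩
  refine (pnorm_le (ff_diffOn a) hq).trans_lt ?_
  apply ENNReal.rpow_lt_top_of_nonneg (by positivity)
  apply ENNReal.mul_ne_top CC_ne_top
  exact ne_top_of_le_ne_top ENNReal.ofReal_ne_top (NN_ff_le ha hq h)

end Pool.Agent.Lib.MP_d61770_an
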