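import Pool.Agent.Lib.MP_d61770_an.Norm

/-!
# The measure `mu0` is symmetric
-/

set_option autoImplicit false

namespace Pool.Agent.Lib.MP_d61770_an

open MeasureTheory Filter Topology Metric Set
open scoped ENNReal Polynomial Real

/-- Radial density of `mu0`. -/
noncomputable def dens (s : ℝ) : ℝ≥0∞ :=
  ENNReal.ofReal (2 * π) * ENNReal.ofReal (s * Real.exp (-(1 / (1 - s) ^ 2)))

/-- The radial measure of `mu0`. -/
noncomputable def nu0 : Measure ℝ := (volume.restrict (Ioo (0 : ℝ) 1)).withDensity dens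

theorem measurable_dens : Measurable dens := by
  unfold dens
  fun_prop

theorem polar_map_eq (p : ℝ × ℝ) :
    (p.1 : ℂ) * Complex.exp (p.2 * Complex.I) = Complex.polarCoord.symm p := by
  rw [Complex.polarCoord_symm_apply, Complex.exp_mul_I]
  simp

theorem mu0_eq_polar : mu0 = polar nu0 := by
  have hφ : Measurable (fun x : ℝ × ℝ => (x.1 : ℂ) * Complex.exp (x.2 * Complex.I)) := by
    fun_prop
  have h2π : ENNReal.ofReal (2 * π) ≠ 0 := by
    rw [Ne, ENNReal.ofReal_eq_zero, not_le]; positivity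
  apply Measure.ext
  intro s hs
  -- right side
  have hR : polar nu0 s = ∫⁻ p in Ioo (0 : ℝ) 1 ×ˢ Ioo (-π) π,
      ((fun x : ℝ × ℝ => (x.1 : ℂ) * Complex.exp (x.2 * Complex.I)) ⁻¹' s).indicator
        (fun p => ENNReal.ofReal (p.1 * Real.exp (-(1 / (1 - p.1) ^ 2)))) p := by
    unfold polar nu0
    rw [Measure.smul_apply, Measure.map_apply hφ hs, prod_withDensity_left measurable_dens,
      Measure.prod_restrict, withDensity_apply _ (hφ hs), ← lintegral_indicator (hφ hs),
      smul_eq_mul, ← lintegral_const_mul' _ _ (ENNReal.inv_ne_top.mpr h2π)]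
    apply lintegral_congr
    intro p
    by_cases hp : p ∈ (fun x : ℝ × ℝ => (x.1 : ℂ) * Complex.exp (x.2 * Complex.I)) ⁻¹' s
    · rw [indicator_of_mem hp, indicator_of_mem hp, dens, ← mul_assoc,
        ENNReal.inv_mul_cancel h2π ENNReal.ofReal_ne_top, one_mul]
    · rw [indicator_of_notMem hp, indicator_of_notMem hp, mul_zero]
  -- left side
  have hL : mu0 s = ∫⁻ z : ℂ, (ball (0 : ℂ) 1 ∩ s).indicator
      (fun z => ENNReal.ofReal (wt z)) z := by
    unfold mu0
    rw [withDensity_apply _ hs, Measure.restrict_restrict hs, inter_comm,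
      lintegral_indicator (measurableSet_ball.inter hs)]
  rw [hL, hR, ← Complex.lintegral_comp_polarCoord_symm,
    ← lintegral_indicator (polarCoord.open_target.measurableSet),
    ← lintegral_indicator (measurableSet_Ioo.prod measurableSet_Ioo)]
  apply lintegral_congr
  intro p
  by_cases h1 : p ∈ Ioo (0 : ℝ) 1 ×ˢ Ioo (-π) π
  · have h2 : p ∈ polarCoord.target := ⟨h1.1.1, h1.2⟩
    have h3 : Complex.polarCoord.symm p ∈ ball (0 : ℂ) 1 := by
      rw [mem_ball_zero_iff, Complex.norm_polarCoord_symm, abs_of_pos h1.1.1]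
      exact h1.1.2
    rw [indicator_of_mem h2, indicator_of_mem h1, smul_eq_mul]
    by_cases h4 : Complex.polarCoord.symm p ∈ s
    · have h5 : p ∈ (fun x : ℝ × ℝ => (x.1 : ℂ) * Complex.exp (x.2 * Complex.I)) ⁻¹' s := by
        rw [mem_preimage, polar_map_eq]; exact h4
      have h6 : Complex.polarCoord.symm p ∈ ball (0 : ℂ) 1 ∩ s := mem_inter h3 h4
      rw [indicator_of_mem h6, indicator_of_mem h5, ← ENNReal.ofReal_mul h1.1.1.le, wt, Complex.norm_polarCoord_symm,
        abs_of_pos h1.1.1]
    · have h5 : p ∉ (fun x : ℝ × ℝ => (x.1 : ℂ) * Complex.exp (x.2 * Complex.I)) ⁻¹' s := by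
        rw [mem_preimage, polar_map_eq]; exact h4
      have h6 : Complex.polarCoord.symm p ∉ ball (0 : ℂ) 1 ∩ s := fun h => h4 h.2
      rw [indicator_of_notMem h6, indicator_of_notMem h5, mul_zero]
  · rw [indicator_of_notMem h1]
    by_cases h2 : p ∈ polarCoord.target
    · rw [indicator_of_mem h2, indicator_of_notMem, smul_eq_mul, mul_zero]
      rintro ⟨h3, -⟩
      rw [mem_ball_zero_iff, Complex.norm_polarCoord_symm, abs_of_pos h2.1] at h3
      exact h1 ⟨⟨h2.1, h3⟩, h2.2⟩
    · rw [indicator_of_notMem h2]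

theorem isSymm_mu0 : IsSymm mu0 := by
  refine ⟨nu0, ?_, ?_, ?_, ?_, mu0_eq_polar⟩
  · -- finite
    refine ⟨?_⟩
    unfold nu0
    rw [withDensity_apply _ MeasurableSet.univ, Measure.restrict_univ]
    calc ∫⁻ s in Ioo (0 : ℝ) 1, dens s ≤ ∫⁻ _ in Ioo (0 : ℝ) 1, ENNReal.ofReal (2 * π) := by
          apply setLIntegral_mono' measurableSet_Ioo
          intro s hs
          unfold dens
          rw [← ENNReal.ofReal_mul (by positivity)]
          apply ENNReal.ofReal_le_ofReal
          have h1 : Real.exp (-(1 / (1 - s) ^ 2)) ≤ 1 := by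
            rw [Real.exp_le_one_iff]
            have : 0 ≤ 1 / (1 - s) ^ 2 := by positivity
            linarith
          have h2 : s * Real.exp (-(1 / (1 - s) ^ 2)) ≤ 1 :=
            (mul_le_mul hs.2.le h1 (Real.exp_pos _).le zero_le_one).trans (by norm_num)
          have h3 : 0 < 2 * π := by positivity
          nlinarith
      _ < ∞ := by
          rw [setLIntegral_const, Real.volume_Ioo]
          exact ENNReal.mul_lt_top ENNReal.ofReal_lt_top ENNReal.ofReal_lt_top
  · unfold nu0
    apply (withDensity_absolutelyContinuous _ _)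
    rw [Measure.restrict_apply measurableSet_Icc.compl]
    have : (Icc (0 : ℝ) 1)ᶜ ∩ Ioo 0 1 = ∅ := by
      ext x
      simp only [mem_inter_iff, mem_compl_iff, mem_empty_iff_false, iff_false]
      rintro ⟨h1, h2⟩
      exact h1 ⟨h2.1.le, h2.2.le⟩
    rw [this, measure_empty]
  · unfold nu0
    apply (withDensity_absolutelyContinuous _ _)
    rw [Measure.restrict_apply (measurableSet_singleton 0)]
    exact measure_mono_null inter_subset_left (by simp)
  · intro r hr hr1
    unfold nu0
    rw [withDensity_apply _ measurableSet_Icc, Measure.restrict_restrict measurableSet_Icc]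
    have hsub : Ioo r 1 ⊆ Icc r 1 ∩ Ioo 0 1 := fun x hx =>
      ⟨⟨hx.1.le, hx.2.le⟩, ⟨lt_of_le_of_lt hr hx.1, hx.2⟩⟩
    refine lt_of_lt_of_le ?_ (lintegral_mono_set hsub)
    rw [setLIntegral_pos_iff measurable_dens]
    have h1 : Ioo r 1 ⊆ Function.support dens ∩ Ioo r 1 := by
      intro x hx
      refine ⟨?_, hx⟩
      rw [Function.mem_support]
      have hx0 : 0 < x := lt_of_le_of_lt hr hx.1
      unfold dens
      apply mul_ne_zero
      · rw [Ne, ENNReal.ofReal_eq_zero, not_le]; positivity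
      · rw [Ne, ENNReal.ofReal_eq_zero, not_le]; positivity
    refine lt_of_lt_of_le ?_ (measure_mono h1)
    rw [Real.volume_Ioo, ENNReal.ofReal_pos]
    linarith

end Pool.Agent.Lib.MP_d61770_an
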